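import Pool.Agent.U62.SC.Fin
import Pool.Agent.X280.BP.GaussFam
import Pool.Agent.X280.HP.Sec5

/-!
# Partial Euler products on the critical line: families of integral curves
-/

set_option autoImplicit false
set_option linter.unusedSectionVars false

namespace Pool.Agent.U62.SC

open Finset Pool.Agent.X280.BP Pool.Agent.X280.HP Pool.Agent.U62.RB MeasureTheory ProbabilityTheory
open Pool.Agent.Y722.HS (EM EB red)

/-- The Euler factors do not vanish. -/
theorem eul_ne {q a : ℝ} (hq : 1 < q) (ha : |a| ≤ 2 * √q) {x : ℂ} (hx : ‖x‖ = 1 / q) :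
    1 - (a : ℂ) * x + (q : ℂ) * x ^ 2 ≠ 0 := by
  intro h
  have hq0 : 0 < q := by linarith
  have hn : x.re * x.re + x.im * x.im = 1 / q ^ 2 := by
    have h1 : Complex.normSq x = 1 / q ^ 2 := by
      rw [Complex.normSq_eq_norm_sq, hx, div_pow, one_pow]
    rw [← h1, Complex.normSq_apply]
  have hre := congrArg Complex.re h
  have him := congrArg Complex.im h
  simp only [Complex.sub_re, Complex.add_re, Complex.one_re, Complex.mul_re, Complex.ofReal_re, Complex.ofReal_im, sq,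
    Complex.zero_re, zero_mul, sub_zero, Complex.sub_im, Complex.add_im, Complex.one_im, Complex.mul_im, Complex.zero_im,
    add_zero, zero_sub] at hre him
  have ha2 : a ^ 2 ≤ 4 * q := by
    rw [← sq_abs]
    calc |a| ^ 2 ≤ (2 * √q) ^ 2 := pow_le_pow_left₀ (abs_nonneg _) ha 2
      _ = 4 * q := by rw [mul_pow, Real.sq_sqrt hq0.le]; norm_num
  have hn2 : q ^ 2 * (x.re * x.re + x.im * x.im) = 1 := by
    rw [hn]
    field_simp
  -- the imaginary part of the equation times the conjugate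
  have e1 : (q - 1) * x.im = 0 := by
    have : x.re * (-(a * x.im) + q * (x.re * x.im + x.im * x.re)) - x.im * (1 - a * x.re + q * (x.re * x.re - x.im * x.im)) =
        -x.im + q * x.im * (x.re * x.re + x.im * x.im) := by ring
    rw [hre, him, hn] at this
    have h2 : q * (-x.im + q * x.im * (1 / q ^ 2)) = -(q - 1) * x.im := by
      field_simp
      ring
    rw [← this] at h2
    linarith
  have e2 : x.im = 0 := by
    rcases mul_eq_zero.1 e1 with h3 | h3
    · exact absurd h3 (by linarith)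
    · exact h3
  rw [e2] at hn2 hre
  have h4 : q ^ 2 * (x.re * x.re) = 1 := by linarith
  have h5 : a * x.re = 1 + q * (x.re * x.re) := by linarith
  have h6 : (a * x.re) ^ 2 * q ^ 2 = a ^ 2 := by
    calc (a * x.re) ^ 2 * q ^ 2 = a ^ 2 * (q ^ 2 * (x.re * x.re)) := by ring
      _ = a ^ 2 := by rw [h4, mul_one]
  have h7 : (1 + q * (x.re * x.re)) ^ 2 * q ^ 2 = (q + 1) ^ 2 := by
    have : (1 + q * (x.re * x.re)) * q = q + 1 := by
      calc (1 + q * (x.re * x.re)) * q = q + q ^ 2 * (x.re * x.re) := by ring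
        _ = q + 1 := by rw [h4]
    rw [← mul_pow, this]
  rw [h5, h7] at h6
  nlinarith [sq_nonneg (q - 1)]

open Classical in
/-- The partial Euler product. -/
noncomputable def pep (E : WeierstrassCurve ℤ) (T : ℕ) (s : ℂ) : ℂ :=
  ∏ p ∈ (range (T + 1)).filter (fun p : ℕ => p.Prime ∧ ¬ (p : ℤ) ∣ 6 * E.Δ),
    (1 - ((p : ℂ) + 1 - np E p) * (p : ℂ) ^ (-s) + (p : ℂ) ^ (1 - 2 * s))⁻¹

theorem xx_pow {p : ℕ} (hp : 0 < p) (t : ℝ) :
    (p : ℂ) ^ (1 - 2 * (1 + t * Complex.I) : ℂ) = (p : ℂ) * xx t p ^ 2 := by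
  have hpc : (p : ℂ) ≠ 0 := by exact_mod_cast hp.ne'
  unfold xx
  rw [← Complex.cpow_nat_mul, sub_eq_add_neg, Complex.cpow_add _ _ hpc, Complex.cpow_one]
  congr 2
  push_cast
  ring

theorem good_iff {n : ℕ} {W : (Fin n → ℤ) → WeierstrassCurve ℤ} {V : ∀ p : ℕ, (Fin n → ZMod p) → WeierstrassCurve (ZMod p)}
    (h : Red W V) (c : Fin n → ℤ) (p : ℕ) : (p.Prime ∧ ¬ (p : ℤ) ∣ 6 * (W c).Δ) ↔
      ((p.Prime ∧ 5 ≤ p) ∧ (V p (red p c)).Δ ≠ 0) := by
  rw [and_assoc]
  refine and_congr_right fun hp => ?_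
  have hpi : Prime (p : ℤ) := Nat.prime_iff_prime_int.mp hp
  have h3 : (V p (red p c)).Δ ≠ 0 ↔ ¬ (p : ℤ) ∣ (W c).Δ := by
    rw [← h.map, WeierstrassCurve.map_Δ]
    have h3 : (Int.castRingHom (ZMod p)) (W c).Δ = (((W c).Δ : ℤ) : ZMod p) := rfl
    rw [h3, Ne, ZMod.intCast_zmod_eq_zero_iff_dvd]
  rw [h3]
  constructor
  · intro hd
    refine ⟨?_, fun h4 => hd (Dvd.dvd.mul_left h4 6)⟩
    by_contra h5
    push Not at h5
    have h2 := hp.two_le
    have hne4 : p ≠ 4 := by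
      rintro rfl
      norm_num at hp
    have : p = 2 ∨ p = 3 := by omega
    rcases this with rfl | rfl
    · exact hd (Dvd.dvd.mul_right (by norm_num) _)
    · exact hd (Dvd.dvd.mul_right (by norm_num) _)
  · rintro ⟨h5, h6⟩ h7
    rcases hpi.dvd_or_dvd h7 with h8 | h8
    · have h9 := Int.le_of_dvd (by norm_num) h8
      have h10 : p = 5 ∨ p = 6 := by omega
      rcases h10 with rfl | rfl
      · norm_num at h8
      · norm_num at hp
    · exact h6 h8

theorem pep_lel {n : ℕ} {W : (Fin n → ℤ) → WeierstrassCurve ℤ} {V : ∀ p : ℕ, (Fin n → ZMod p) → WeierstrassCurve (ZMod p)}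
    (h : Red W V) (D : ∀ p : ℕ, p.Prime → 5 ≤ p → ∀ c, |trc V p c| ≤ 2 * √p) (T : ℕ) (t : ℝ) (c : Fin n → ℤ) :
    Real.log ‖pep (W c) T (1 + t * Complex.I)‖ = lel (trc V) (fun p c => (V p c).Δ ≠ 0) T t c := by
  classical
  have hnp : ∀ p : ℕ, ((p : ℂ) + 1 - (np (W c) p : ℂ)) = ((trc V p (red p c) : ℝ) : ℂ) := by
    intro p
    rw [np_map, h.map]
    unfold trc
    push_cast
    ring
  have hset : (range (T + 1)).filter (fun p : ℕ => p.Prime ∧ ¬ (p : ℤ) ∣ 6 * (W c).Δ) =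
      (PP T).filter (fun p => (V p (red p c)).Δ ≠ 0) := by
    unfold PP
    rw [Finset.filter_filter]
    refine Finset.filter_congr fun p _ => ?_
    exact good_iff h c p
  unfold pep lel
  rw [hset, norm_prod, Real.log_prod, Finset.sum_filter]
  · refine Finset.sum_congr rfl fun p hp => ?_
    split_ifs with hc
    · rw [norm_inv, Real.log_inv, hnp, xx_pow (mem_PP.1 hp).2.1.pos]
      rfl
    · rfl
  · intro p hp
    obtain ⟨hp1, hp2⟩ := Finset.mem_filter.1 hp
    obtain ⟨_, hpp, h5⟩ := mem_PP.1 hp1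
    have hp5 : (5 : ℝ) ≤ p := by exact_mod_cast h5
    rw [norm_inv]
    refine inv_ne_zero ?_
    rw [hnp, xx_pow hpp.pos, norm_ne_zero_iff]
    intro h0
    have hxe : ((p : ℂ) ^ (-(1 + t * Complex.I) : ℂ)) = xx t p := rfl
    rw [hxe] at h0
    exact eul_ne (by linarith) (D p hpp h5 (red p c)) (xx_norm hpp.pos t) (by push_cast; exact h0)

end Pool.Agent.U62.SC
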