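import Pool.Agent.U62.SC.Law

/-!
# Partial Euler products on the critical line: the joint law
-/

set_option autoImplicit false
set_option linter.unusedSectionVars false

namespace Pool.Agent.U62.SC

open Finset Filter Topology Pool.Agent.X280.BP Pool.Agent.X280.UC Pool.Agent.X280.HG Pool.Agent.U62.BM Pool.Agent.U62.RB
  MeasureTheory ProbabilityTheory
open Pool.Agent.Y722.HS (EM EB red)

variable {n : ℕ} {a : ∀ p : ℕ, (Fin n → ZMod p) → ℝ} {G : ∀ p : ℕ, (Fin n → ZMod p) → Prop} {r C : ℝ}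

/-- The factor at height `t`. -/
noncomputable def lam (t : ℝ) : ℝ := if t = 0 then 1 / √2 else 1

/-- The variance at height `t`. -/
noncomputable def nu (t : ℝ) : ℝ := if t = 0 then 1 else 1 / 2

theorem lam_pos (t : ℝ) : 0 < lam t := by
  unfold lam
  split_ifs <;> positivity

theorem lam_le (t : ℝ) : lam t ≤ 1 := by
  unfold lam
  split_ifs
  · rw [div_le_one (by positivity)]
    exact Real.one_le_sqrt.2 (by norm_num)
  · exact le_rfl

theorem nu_lam (t : ℝ) {V : ℝ} (_hV : 0 ≤ V) : lam t * √(nu t * (2 * V)) = √V := by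
  unfold lam nu
  split_ifs
  · rw [one_mul, Real.sqrt_mul (by norm_num), ← mul_assoc, one_div, inv_mul_cancel₀ (by positivity), one_mul]
  · rw [one_mul]
    congr 1
    ring

theorem kp_mul (s t : ℝ) (p : ℕ) : kp s p * kp t p = 1 / 2 * kp (s - t) p + 1 / 2 * kp (s + t) p := by
  unfold kp
  rw [sub_mul, add_mul, Real.cos_sub, Real.cos_add]
  ring

theorem cov_sum (k : ℕ) (t : Fin k → ℝ) (ht0 : ∀ i, 0 ≤ t i) (hti : Function.Injective t) (i j : Fin k) :
    ∃ B : ℝ, 0 ≤ B ∧ ∀ T : ℕ, 3 ≤ T →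
      |∑ p ∈ PP T, lam (t i) * lam (t j) * (kp (t i) p * kp (t j) p / p) -
        if i = j then 1 / 2 * Real.log (Real.log T) else 0| ≤ B := by
  by_cases hij : i = j
  · subst hij
    obtain ⟨B, hB0, hB⟩ := PP_inv
    by_cases h0 : t i = 0
    · refine ⟨B, hB0, fun T hT => ?_⟩
      rw [if_pos rfl, h0]
      have e : ∀ p : ℕ, lam 0 * lam 0 * (kp 0 p * kp 0 p / p) = 1 / 2 * (1 / (p : ℝ)) := by
        intro p
        rw [kp_zero]
        unfold lam
        rw [if_pos rfl]
        have : (1 : ℝ) / √2 * (1 / √2) = 1 / 2 := by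
          rw [div_mul_div_comm, Real.mul_self_sqrt (by norm_num)]
          norm_num
        rw [this, one_mul]
      rw [Finset.sum_congr rfl fun p _ => e p, ← Finset.mul_sum]
      have e2 : 1 / 2 * ∑ p ∈ PP T, 1 / (p : ℝ) - 1 / 2 * Real.log (Real.log T) =
          1 / 2 * (∑ p ∈ PP T, 1 / (p : ℝ) - Real.log (Real.log T)) := by ring
      rw [e2, abs_mul, abs_of_pos (by norm_num : (0 : ℝ) < 1 / 2)]
      have := hB T hT
      linarith
    · obtain ⟨B', hB'0, hB'⟩ := PP_cos (t := t i + t i) (by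
        have := ht0 i
        have : 0 < t i := lt_of_le_of_ne this (Ne.symm h0)
        linarith)
      refine ⟨B + B', by positivity, fun T hT => ?_⟩
      rw [if_pos rfl]
      have e : ∀ p : ℕ, lam (t i) * lam (t i) * (kp (t i) p * kp (t i) p / p) = 1 / 2 * (1 / (p : ℝ)) +
          1 / 2 * (kp (t i + t i) p / p) := by
        intro p
        rw [kp_mul, sub_self, kp_zero]
        unfold lam
        rw [if_neg h0]
        ring
      rw [Finset.sum_congr rfl fun p _ => e p, Finset.sum_add_distrib, ← Finset.mul_sum, ← Finset.mul_sum]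
      have e2 : 1 / 2 * ∑ p ∈ PP T, 1 / (p : ℝ) + 1 / 2 * ∑ p ∈ PP T, kp (t i + t i) p / p - 1 / 2 * Real.log (Real.log T) =
          1 / 2 * (∑ p ∈ PP T, 1 / (p : ℝ) - Real.log (Real.log T)) + 1 / 2 * ∑ p ∈ PP T, kp (t i + t i) p / p := by ring
      rw [e2]
      refine (abs_add_le _ _).trans ?_
      rw [abs_mul, abs_mul, abs_of_pos (by norm_num : (0 : ℝ) < 1 / 2)]
      have := hB T hT
      have := hB' T
      linarith
  · have hne : t i ≠ t j := fun h => hij (hti h)
    obtain ⟨B, hB0, hB⟩ := PP_cos (t := t i - t j) (sub_ne_zero.2 hne)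
    obtain ⟨B', hB'0, hB'⟩ := PP_cos (t := t i + t j) (by
      have h1 := ht0 i
      have h2 := ht0 j
      intro h
      exact hne (by linarith))
    refine ⟨B + B', by positivity, fun T hT => ?_⟩
    rw [if_neg hij, sub_zero]
    have e : ∀ p : ℕ, lam (t i) * lam (t j) * (kp (t i) p * kp (t j) p / p) =
        lam (t i) * lam (t j) * (1 / 2 * (kp (t i - t j) p / p) + 1 / 2 * (kp (t i + t j) p / p)) := by
      intro p
      rw [kp_mul]
      ring
    rw [Finset.sum_congr rfl fun p _ => e p, ← Finset.mul_sum, Finset.sum_add_distrib, ← Finset.mul_sum, ← Finset.mul_sum,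
      abs_mul, abs_mul, abs_of_pos (lam_pos _), abs_of_pos (lam_pos _)]
    have h1 : lam (t i) * lam (t j) ≤ 1 := mul_le_one₀ (lam_le _) (lam_pos _).le (lam_le _)
    have h2 : |1 / 2 * ∑ p ∈ PP T, kp (t i - t j) p / p + 1 / 2 * ∑ p ∈ PP T, kp (t i + t j) p / p| ≤ B + B' := by
      refine (abs_add_le _ _).trans ?_
      rw [abs_mul, abs_mul, abs_of_pos (by norm_num : (0 : ℝ) < 1 / 2)]
      have := hB T
      have := hB' T
      linarith
    calc lam (t i) * lam (t j) * |1 / 2 * ∑ p ∈ PP T, kp (t i - t j) p / p + 1 / 2 * ∑ p ∈ PP T, kp (t i + t j) p / p| ≤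
        1 * (B + B') := mul_le_mul h1 h2 (abs_nonneg _) (by norm_num)
      _ = _ := one_mul _

/-- The data of the joint law. -/
noncomputable def jd (a : ∀ p : ℕ, (Fin n → ZMod p) → ℝ) {k : ℕ} (t : Fin k → ℝ) (T H : ℕ) : JD n k :=
  ⟨fun i p c => lam (t i) * kp (t i) p / p * a p (red p c), PP T, 1 / 2 * Real.log (Real.log T), T, H⟩

theorem jd_mean {k : ℕ} (t : Fin k → ℝ) (T H : ℕ) (i : Fin k) {p : ℕ} (hp : p.Prime) :
    lmean ((jd a t T H).F i p) p = lam (t i) * kp (t i) p / p * ma a p := by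
  have hne : NeZero p := ⟨hp.ne_zero⟩
  obtain ⟨g, hg⟩ : ∃ g : (Fin n → ZMod p) → ℝ, g = fun x => lam (t i) * kp (t i) p / p * a p x := ⟨_, rfl⟩
  have e : (jd a t T H).F i p = fun c => g (red p c) := by
    funext c
    rw [hg]
    rfl
  rw [e, lmean_red, hg, Pool.Agent.X280.BP.EM_mul' p (lam (t i) * kp (t i) p / p) (a p), ma_eq]

theorem jd_cov {k : ℕ} (t : Fin k → ℝ) (T H : ℕ) (i j : Fin k) {p : ℕ} (hp : p.Prime) :
    lcov ((jd a t T H).F i p) ((jd a t T H).F j p) p =
      lam (t i) * kp (t i) p / p * (lam (t j) * kp (t j) p / p) * (ms a p - ma a p ^ 2) := by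
  have hne : NeZero p := ⟨hp.ne_zero⟩
  unfold lcov
  rw [jd_mean t T H i hp, jd_mean t T H j hp]
  obtain ⟨g, hg⟩ : ∃ g : (Fin n → ZMod p) → ℝ, g = fun x =>
    lam (t i) * kp (t i) p / p * (lam (t j) * kp (t j) p / p) * a p x ^ 2 := ⟨_, rfl⟩
  have e : (fun c => (jd a t T H).F i p c * (jd a t T H).F j p c) = fun c => g (red p c) := by
    funext c
    rw [hg]
    show lam (t i) * kp (t i) p / p * a p (red p c) * (lam (t j) * kp (t j) p / p * a p (red p c)) = _
    ring
  rw [e, lmean_red, hg,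
    Pool.Agent.X280.BP.EM_mul' p (lam (t i) * kp (t i) p / p * (lam (t j) * kp (t j) p / p)) (fun x => a p x ^ 2), ms_eq]
  ring

theorem jd_X {k : ℕ} (t : Fin k → ℝ) (T H : ℕ) (c : Fin n → ℤ) (i : Fin k) :
    (jd a t T H).X c i = lam (t i) * Sm a T (t i) c / √(1 / 2 * Real.log (Real.log T)) := by
  unfold JD.X
  show (∑ p ∈ PP T, lam (t i) * kp (t i) p / p * a p (red p c) - ∑ p ∈ PP T, lmean ((jd a t T H).F i p) p) / _ = _
  rw [Finset.sum_congr rfl fun p hp => jd_mean t T H i (mem_PP.1 hp).2.1, ← Finset.sum_sub_distrib]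
  unfold Sm
  rw [Finset.mul_sum]
  congr 1
  refine Finset.sum_congr rfl fun p _ => ?_
  ring

theorem jd_cov_sum (D : Dat a G r C) {k : ℕ} (t : Fin k → ℝ) (ht0 : ∀ i, 0 ≤ t i) (hti : Function.Injective t) (i j : Fin k) :
    ∃ B : ℝ, 0 ≤ B ∧ ∀ T H : ℕ, 3 ≤ T →
      |∑ p ∈ PP T, lcov ((jd a t T H).F i p) ((jd a t T H).F j p) p -
        if i = j then 1 / 2 * Real.log (Real.log T) else 0| ≤ B := by
  have hC := D.C1
  obtain ⟨B1, hB10, hB1⟩ := cov_sum k t ht0 hti i j
  obtain ⟨C1, hC10, hC1⟩ := sum_three_half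
  obtain ⟨M, hM⟩ : ∃ M : ℝ, M = C + (|r| + C) ^ 2 := ⟨_, rfl⟩
  have hM0 : 0 ≤ M := by rw [hM]; positivity
  refine ⟨M * C1 + B1, by positivity, fun T H hT => ?_⟩
  have h1 : |∑ p ∈ PP T, lcov ((jd a t T H).F i p) ((jd a t T H).F j p) p -
      ∑ p ∈ PP T, lam (t i) * lam (t j) * (kp (t i) p * kp (t j) p / p)| ≤ M * C1 := by
    rw [← Finset.sum_sub_distrib]
    refine (Finset.abs_sum_le_sum_abs _ _).trans ?_
    refine le_trans ?_ (mul_le_mul_of_nonneg_left (hC1 (PP T)) hM0)
    rw [Finset.mul_sum]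
    refine Finset.sum_le_sum fun p hp => ?_
    obtain ⟨_, hpp, h5⟩ := mem_PP.1 hp
    have hne : NeZero p := ⟨hpp.ne_zero⟩
    have hp0 : (0 : ℝ) < p := by exact_mod_cast hpp.pos
    have hp1 : (1 : ℝ) ≤ p := by exact_mod_cast hpp.one_lt.le
    have hs : 0 < √(p : ℝ) := Real.sqrt_pos.2 hp0
    have hs1 : 1 ≤ √(p : ℝ) := Real.one_le_sqrt.2 hp1
    have hs2 : √(p : ℝ) * √(p : ℝ) = p := Real.mul_self_sqrt hp0.le
    rw [jd_cov t T H i j hpp]
    have h2 := D.mean p hpp h5
    have h3 := D.sq p hpp h5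
    rw [← ma_eq p] at h2
    rw [← ms_eq p] at h3
    have h4 : |ma a p| ≤ |r| + C := by
      have e : ma a p = (ma a p + r) - r := by ring
      rw [e]
      refine (abs_sub _ _).trans ?_
      have : C / √(p : ℝ) ≤ C := div_le_self (by linarith) hs1
      linarith
    have h5' : |ms a p - ma a p ^ 2 - p| ≤ M * √p := by
      have e : ms a p - ma a p ^ 2 - p = (ms a p - p) - ma a p ^ 2 := by ring
      rw [e]
      refine (abs_sub _ _).trans ?_
      have h6 : |ma a p ^ 2| ≤ (|r| + C) ^ 2 := by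
        rw [abs_pow]
        exact pow_le_pow_left₀ (abs_nonneg _) h4 2
      have h7 : (|r| + C) ^ 2 ≤ (|r| + C) ^ 2 * √(p : ℝ) := le_mul_of_one_le_right (by positivity) hs1
      rw [hM, add_mul]
      linarith
    have e : lam (t i) * kp (t i) p / p * (lam (t j) * kp (t j) p / p) * (ms a p - ma a p ^ 2) -
        lam (t i) * lam (t j) * (kp (t i) p * kp (t j) p / p) =
        lam (t i) * lam (t j) * (kp (t i) p * kp (t j) p) / (p : ℝ) ^ 2 * (ms a p - ma a p ^ 2 - p) := by
      field_simp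
    rw [e, abs_mul, abs_div, abs_mul, abs_mul, abs_mul, abs_of_pos (lam_pos _), abs_of_pos (lam_pos _),
      abs_of_pos (by positivity : (0 : ℝ) < (p : ℝ) ^ 2)]
    have h8 : lam (t i) * lam (t j) * (|kp (t i) p| * |kp (t j) p|) ≤ 1 := by
      have h9 : lam (t i) * lam (t j) ≤ 1 := mul_le_one₀ (lam_le _) (lam_pos _).le (lam_le _)
      have h10 : |kp (t i) p| * |kp (t j) p| ≤ 1 := mul_le_one₀ (kp_abs _ _) (abs_nonneg _) (kp_abs _ _)
      exact mul_le_one₀ h9 (by positivity) h10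
    calc lam (t i) * lam (t j) * (|kp (t i) p| * |kp (t j) p|) / (p : ℝ) ^ 2 * |ms a p - ma a p ^ 2 - p| ≤
        1 / (p : ℝ) ^ 2 * (M * √p) :=
          mul_le_mul (div_le_div_of_nonneg_right h8 (by positivity)) h5' (abs_nonneg _) (by positivity)
      _ = M * (1 / ((p : ℝ) * √p)) := by
          field_simp
          rw [sq, hs2]
          ring
  have h2 := hB1 T hT
  have e : ∑ p ∈ PP T, lcov ((jd a t T H).F i p) ((jd a t T H).F j p) p -
        (if i = j then 1 / 2 * Real.log (Real.log T) else 0) =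
      (∑ p ∈ PP T, lcov ((jd a t T H).F i p) ((jd a t T H).F j p) p -
      ∑ p ∈ PP T, lam (t i) * lam (t j) * (kp (t i) p * kp (t j) p / p)) +
      (∑ p ∈ PP T, lam (t i) * lam (t j) * (kp (t i) p * kp (t j) p / p) -
        (if i = j then 1 / 2 * Real.log (Real.log T) else 0)) := by ring
  rw [e]
  exact (abs_add_le _ _).trans (add_le_add h1 h2)

theorem loglog_large (M : ℝ) : ∃ T0 : ℕ, 3 ≤ T0 ∧ ∀ T : ℕ, T0 ≤ T → M ≤ Real.log (Real.log T) := by
  have h : Tendsto (fun T : ℕ => Real.log (Real.log T)) atTop atTop :=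
    Real.tendsto_log_atTop.comp (Real.tendsto_log_atTop.comp tendsto_natCast_atTop_atTop)
  obtain ⟨T0, hT0⟩ := (h.eventually_ge_atTop M).exists_forall_of_atTop
  exact ⟨max 3 T0, le_max_left _ _, fun T hT => hT0 T ((le_max_right _ _).trans hT)⟩

open scoped Classical in
/-- **The joint law of the partial Euler products on the critical line.** -/
theorem crit_law (D : Dat a G r C) {k : ℕ} (t : Fin k → ℝ) (ht0 : ∀ i, 0 ≤ t i) (hti : Function.Injective t) {B0 : ℝ}
    (q : ℕ → (Fin n → ℤ) → Fin k → ℝ) (hq : ∀ T c i, |q T c i - lel a G T (t i) c| ≤ B0) (u : Fin k → ℝ)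
    {ε : ℝ} (hε : 0 < ε) : ∃ K : ℕ, ∀ T H : ℕ, K ≤ T → T ^ K ≤ H →
    |prop H (fun c => ∀ i, q T c i + cen r T (t i) ≤ u i * √(nu (t i) * Real.log (Real.log T))) -
      ∏ i, (gaussianReal 0 1).real (Set.Iic (u i))| ≤ ε := by
  obtain ⟨K1, hK1⟩ := joint_near n k (orth u) (orth_closed u).measurableSet (orth_frontier u) hε
  obtain ⟨L, hL⟩ : ∃ L : ℝ, L = (K1 : ℝ) + 1 := ⟨_, rfl⟩
  have hL1 : 1 ≤ L := by
    rw [hL]
    have : (0 : ℝ) ≤ K1 := Nat.cast_nonneg K1
    linarith
  have hL0 : 0 < L := by linarith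
  choose Bc hBc0 hBc using fun i j => jd_cov_sum D t ht0 hti i j
  choose Bn hBn0 hBn using fun i => near_sum D (t i)
  obtain ⟨M1, hM10, hM1⟩ := R1_mean D
  choose M2 hM20 hM2 using fun i => R2_mean D (t i)
  obtain ⟨S, hS⟩ : ∃ S : ℝ, S = ∑ i, ∑ j, Bc i j := ⟨_, rfl⟩
  obtain ⟨Z, hZ⟩ : ∃ Z : ℝ, Z = 3 * M1 + 1 + ∑ i, (M2 i + Bn i) + |B0| := ⟨_, rfl⟩
  have hS0 : 0 ≤ S := hS ▸ Finset.sum_nonneg fun i _ => Finset.sum_nonneg fun j _ => hBc0 i j
  have hZs : 0 ≤ ∑ i, (M2 i + Bn i) := Finset.sum_nonneg fun i _ => add_nonneg (hM20 i) (hBn0 i)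
  have hZ0 : 0 ≤ Z := by rw [hZ]; positivity
  obtain ⟨T0, hT03, hT0⟩ := loglog_large (2 * (L + S * L + (L ^ 2 * Z) ^ 2))
  refine ⟨max T0 (K1 + 4), fun T H hT hH => ?_⟩
  have hTT : T0 ≤ T := (le_max_left _ _).trans hT
  have hT3 : 3 ≤ T := hT03.trans hTT
  have hll := hT0 T hTT
  have q1 : 0 ≤ S * L := by positivity
  have q2 : 0 ≤ (L ^ 2 * Z) ^ 2 := by positivity
  obtain ⟨V, hV⟩ : ∃ V : ℝ, V = 1 / 2 * Real.log (Real.log T) := ⟨_, rfl⟩
  have hV1 : L + S * L + (L ^ 2 * Z) ^ 2 ≤ V := by rw [hV]; linarith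
  have hV0 : 0 < V := by linarith
  have hsV : 0 < √V := Real.sqrt_pos.2 hV0
  have hpowT : ∀ m : ℕ, m ≤ K1 + 4 → T ^ m ≤ H := fun m hm =>
    (Nat.pow_le_pow_right (by omega) (hm.trans (le_max_right _ _))).trans hH
  have hOk : (jd a t T H).Ok K1 := by
    refine ⟨fun p hp => ⟨(mem_PP.1 hp).2.1, (mem_PP.1 hp).1⟩, ?_, ?_, ?_, ?_, ?_, ?_⟩
    · intro i p hp
      exact perF_red p (fun x => lam (t i) * kp (t i) p / p * a p x)
    · intro i p hp c
      obtain ⟨_, hpp, h5⟩ := mem_PP.1 hp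
      have hp0 : (0 : ℝ) < p := by exact_mod_cast hpp.pos
      have hp5 : (5 : ℝ) ≤ p := by exact_mod_cast h5
      have hs : 0 < √(p : ℝ) := Real.sqrt_pos.2 hp0
      have hs2 : √(p : ℝ) * √(p : ℝ) = p := Real.mul_self_sqrt hp0.le
      have hs3 : 2 ≤ √(p : ℝ) := by
        apply Real.le_sqrt_of_sq_le
        linarith
      show |lam (t i) * kp (t i) p / p * a p (red p c)| ≤ 1
      rw [abs_mul, abs_div, abs_mul, abs_of_pos (lam_pos _), abs_of_pos hp0]
      have h1 := D.hasse p hpp h5 (red p c)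
      have h2 : lam (t i) * |kp (t i) p| ≤ 1 := mul_le_one₀ (lam_le _) (abs_nonneg _) (kp_abs _ _)
      calc lam (t i) * |kp (t i) p| / p * |a p (red p c)| ≤ 1 / p * (2 * √p) :=
            mul_le_mul (div_le_div_of_nonneg_right h2 hp0.le) h1 (abs_nonneg _) (by positivity)
        _ ≤ 1 := by
            rw [one_div, inv_mul_le_iff₀ hp0, mul_one]
            nlinarith
    · show (K1 : ℝ) ≤ 1 / 2 * Real.log (Real.log T)
      rw [← hV]
      linarith
    · intro i j
      have h1 := hBc i j T H hT3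
      show |∑ p ∈ PP T, lcov ((jd a t T H).F i p) ((jd a t T H).F j p) p -
        if i = j then 1 / 2 * Real.log (Real.log T) else 0| ≤ 1 / 2 * Real.log (Real.log T) / (K1 + 1)
      refine h1.trans ?_
      rw [← hV, ← hL, le_div_iff₀ hL0]
      have h2 : Bc i j ≤ S := by
        rw [hS]
        refine le_trans ?_ (Finset.single_le_sum (f := fun i => ∑ j, Bc i j)
          (fun i _ => Finset.sum_nonneg fun j _ => hBc0 i j) (Finset.mem_univ i))
        exact Finset.single_le_sum (f := fun j => Bc i j) (fun j _ => hBc0 i j) (Finset.mem_univ j)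
      have h3 : Bc i j * L ≤ S * L := mul_le_mul_of_nonneg_right h2 hL0.le
      linarith
    · exact hpowT K1 (by omega)
    · show 1 ≤ T
      omega
  obtain ⟨Q, hQ⟩ : ∃ Q : (Fin n → ℤ) → Fin k → ℝ, Q = fun c i => lam (t i) * (q T c i + cen r T (t i)) / √V := ⟨_, rfl⟩
  have hnear : Near (jd a t T H) K1 Q := by
    intro i
    rw [← hL]
    have hfar : ∀ c, far (fun c => Q c i) (fun c => (jd a t T H).X c i) (1 / L) c ≤
        L / √V * (3 * R1 G T c + R2 a T (t i) c ^ 2 + (1 + Bn i + |B0|)) := by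
      intro c
      have hR1 : 0 ≤ R1 G T c := by
        unfold R1
        refine Finset.sum_nonneg fun p _ => ?_
        split_ifs <;> positivity
      unfold far
      split_ifs with hc
      · have := hBn0 i
        positivity
      · push Not at hc
        have h1 := hBn i T c hT3
        have h2 := hq T c i
        have h3 : |Q c i - (jd a t T H).X c i| ≤ (3 * R1 G T c + R2 a T (t i) c ^ 2 + (1 + Bn i + |B0|)) / √V := by
          rw [jd_X, hQ, ← hV]
          dsimp only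
          rw [← sub_div, ← mul_sub, abs_div, abs_of_pos hsV]
          refine div_le_div_of_nonneg_right ?_ hsV.le
          rw [abs_mul, abs_of_pos (lam_pos _)]
          have e : q T c i + cen r T (t i) - Sm a T (t i) c =
              (lel a G T (t i) c + cen r T (t i) - Sm a T (t i) c) + (q T c i - lel a G T (t i) c) := by ring
          have h4 : |q T c i + cen r T (t i) - Sm a T (t i) c| ≤ 3 * R1 G T c + R2 a T (t i) c ^ 2 + (1 + Bn i + |B0|) := by
            rw [e]
            refine (abs_add_le _ _).trans ?_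
            have h5 : |R2 a T (t i) c| ≤ 1 + R2 a T (t i) c ^ 2 := by
              rw [← sq_abs (R2 a T (t i) c)]
              nlinarith [sq_nonneg (|R2 a T (t i) c| - 1), abs_nonneg (R2 a T (t i) c)]
            have := le_abs_self B0
            linarith
          calc lam (t i) * |q T c i + cen r T (t i) - Sm a T (t i) c| ≤
              1 * (3 * R1 G T c + R2 a T (t i) c ^ 2 + (1 + Bn i + |B0|)) :=
                mul_le_mul (lam_le _) h4 (abs_nonneg _) (by norm_num)
            _ = _ := one_mul _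
        have h4 : 1 / L ≤ (3 * R1 G T c + R2 a T (t i) c ^ 2 + (1 + Bn i + |B0|)) / √V := hc.le.trans h3
        have h5 : L * (1 / L) ≤ L * ((3 * R1 G T c + R2 a T (t i) c ^ 2 + (1 + Bn i + |B0|)) / √V) :=
          mul_le_mul_of_nonneg_left h4 hL0.le
        rw [mul_one_div_cancel hL0.ne'] at h5
        refine h5.trans (le_of_eq ?_)
        ring
    refine (Pool.Agent.X280.BP.EB_mono (jd a t T H).H _ _ hfar).trans ?_
    show EB H (fun c => L / √V * (3 * R1 G T c + R2 a T (t i) c ^ 2 + (1 + Bn i + |B0|))) ≤ 1 / L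
    rw [EB_mul_left]
    have e1 : EB H (fun c => 3 * R1 G T c + R2 a T (t i) c ^ 2 + (1 + Bn i + |B0|)) =
        3 * EB H (R1 G T) + EB H (fun c => R2 a T (t i) c ^ 2) + (1 + Bn i + |B0|) := by
      rw [Pool.Agent.U62.RB.EB_add2 H (fun c => 3 * R1 G T c + R2 a T (t i) c ^ 2) (fun _ => 1 + Bn i + |B0|),
        Pool.Agent.U62.RB.EB_add2 H (fun c => 3 * R1 G T c) (fun c => R2 a T (t i) c ^ 2),
        EB_mul_left H 3 (R1 G T), Pool.Agent.X280.BP.EB_const]
    rw [e1]
    have h1 := hM1 T H (by simpa using hpowT 1 (by omega))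
    have h2 := hM2 i T H (hpowT 4 (by omega))
    have h3 : M2 i + Bn i ≤ ∑ i, (M2 i + Bn i) :=
      Finset.single_le_sum (f := fun i => M2 i + Bn i) (fun i _ => add_nonneg (hM20 i) (hBn0 i)) (Finset.mem_univ i)
    have h4 : 3 * EB H (R1 G T) + EB H (fun c => R2 a T (t i) c ^ 2) + (1 + Bn i + |B0|) ≤ Z := by
      rw [hZ]
      linarith
    have h5 : L ^ 2 * Z ≤ √V := by
      apply Real.le_sqrt_of_sq_le
      linarith
    calc L / √V * (3 * EB H (R1 G T) + EB H (fun c => R2 a T (t i) c ^ 2) + (1 + Bn i + |B0|)) ≤ L / √V * Z :=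
          mul_le_mul_of_nonneg_left h4 (by positivity)
      _ ≤ 1 / L := by
          rw [div_mul_eq_mul_div, div_le_div_iff₀ hsV hL0]
          calc L * Z * L = L ^ 2 * Z := by ring
            _ ≤ 1 * √V := by linarith
  have hfin := hK1 (jd a t T H) hOk Q hnear
  rw [nor_orth] at hfin
  refine le_trans (le_of_eq ?_) hfin
  congr 2
  rw [measureReal_def, lawE_apply _ _ _ (orth_closed u).measurableSet, ENNReal.toReal_ofReal (by positivity)]
  rw [prop_eq]
  show EB H _ = _
  unfold EB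
  congr 1
  dsimp only
  have key : ∀ c, (∀ i, q T c i + cen r T (t i) ≤ u i * √(nu (t i) * Real.log (Real.log T))) ↔ Q c ∈ orth u := by
    intro c
    unfold orth
    rw [Set.mem_univ_pi]
    refine forall_congr' fun i => ?_
    rw [Set.mem_Iic, hQ]
    dsimp only
    rw [div_le_iff₀ hsV, ← nu_lam (t i) hV0.le]
    have e : 2 * V = Real.log (Real.log T) := by rw [hV]; ring
    rw [e]
    have hl := lam_pos (t i)
    constructor
    · intro h
      calc lam (t i) * (q T c i + cen r T (t i)) ≤ lam (t i) * (u i * √(nu (t i) * Real.log (Real.log T))) :=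
            mul_le_mul_of_nonneg_left h hl.le
        _ = _ := by ring
    · intro h
      have h2 : lam (t i) * (q T c i + cen r T (t i)) ≤ lam (t i) * (u i * √(nu (t i) * Real.log (Real.log T))) := by
        refine h.trans (le_of_eq ?_)
        ring
      exact le_of_mul_le_mul_left h2 hl
  refine (Finset.sum_congr rfl fun c _ => ?_).trans (Finset.sum_boole (fun c => Q c ∈ orth u) _)
  by_cases hc : Q c ∈ orth u
  · rw [if_pos hc, if_pos ((key c).2 hc)]
  · rw [if_neg hc, if_neg fun h => hc ((key c).1 h)]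

end Pool.Agent.U62.SC
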