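import Pool.Agent.U62.SC.Prel

/-!
# Partial Euler products on the critical line: the law
-/

set_option autoImplicit false
set_option linter.unusedSectionVars false

namespace Pool.Agent.U62.SC

open Finset Filter Topology Pool.Agent.X280.BP Pool.Agent.X280.UC Pool.Agent.X280.HG Pool.Agent.U62.BM Pool.Agent.U62.RB
  MeasureTheory ProbabilityTheory
open Pool.Agent.Y722.HS (EM EB red)

variable {n : ℕ} {a : ∀ p : ℕ, (Fin n → ZMod p) → ℝ} {G : ∀ p : ℕ, (Fin n → ZMod p) → Prop} {r C : ℝ}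

/-- The local mean and the local mean square. -/
noncomputable def ma (a : ∀ p : ℕ, (Fin n → ZMod p) → ℝ) (p : ℕ) : ℝ :=
  if h : p = 0 then 0 else haveI : NeZero p := ⟨h⟩; EM p (a p)

noncomputable def ms (a : ∀ p : ℕ, (Fin n → ZMod p) → ℝ) (p : ℕ) : ℝ :=
  if h : p = 0 then 0 else haveI : NeZero p := ⟨h⟩; EM p (fun c => a p c ^ 2)

theorem ma_eq (p : ℕ) [hp : NeZero p] : ma a p = EM p (a p) := by
  unfold ma
  rw [dif_neg hp.out]

theorem ms_eq (p : ℕ) [hp : NeZero p] : ms a p = EM p (fun c => a p c ^ 2) := by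
  unfold ms
  rw [dif_neg hp.out]

open Classical in
/-- The logarithm of the absolute value of the partial Euler product at `1 + i t`. -/
noncomputable def lel (a : ∀ p : ℕ, (Fin n → ZMod p) → ℝ) (G : ∀ p : ℕ, (Fin n → ZMod p) → Prop) (T : ℕ) (t : ℝ)
    (c : Fin n → ℤ) : ℝ :=
  ∑ p ∈ PP T, if G p (red p c) then -Real.log ‖1 - (a p (red p c) : ℂ) * xx t p + (p : ℂ) * xx t p ^ 2‖ else 0

/-- The main sum. -/
noncomputable def Sm (a : ∀ p : ℕ, (Fin n → ZMod p) → ℝ) (T : ℕ) (t : ℝ) (c : Fin n → ℤ) : ℝ :=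
  ∑ p ∈ PP T, kp t p / p * (a p (red p c) - ma a p)

open Classical in
noncomputable def R1 (G : ∀ p : ℕ, (Fin n → ZMod p) → Prop) (T : ℕ) (c : Fin n → ℤ) : ℝ :=
  ∑ p ∈ PP T, (if G p (red p c) then (0 : ℝ) else 1) * (1 / p)

noncomputable def R2 (a : ∀ p : ℕ, (Fin n → ZMod p) → ℝ) (T : ℕ) (t : ℝ) (c : Fin n → ℤ) : ℝ :=
  ∑ p ∈ PP T, kp (2 * t) p / (2 * p) * ((a p (red p c) ^ 2 - ms a p) / p)

theorem near_term (D : Dat a G r C) {p : ℕ} (hp : p.Prime) (h5 : 5 ≤ p) (t : ℝ) (c : Fin n → ZMod p) [Decidable (G p c)] :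
    |(if G p c then -Real.log ‖1 - (a p c : ℂ) * xx t p + (p : ℂ) * xx t p ^ 2‖ else 0) -
      (kp t p / p * (a p c - ma a p) - r * (kp t p / p) - 1 / 2 * (kp (2 * t) p / p) +
        kp (2 * t) p / (2 * p) * ((a p c ^ 2 - ms a p) / p))| ≤
      3 * ((if G p c then (0 : ℝ) else 1) * (1 / p)) + (2 + 2 * C) * (1 / ((p : ℝ) * √p)) := by
  have hne : NeZero p := ⟨hp.ne_zero⟩
  have hp5 : (5 : ℝ) ≤ p := by exact_mod_cast h5
  have hp0 : (0 : ℝ) < p := by linarith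
  have hs : 0 < √(p : ℝ) := Real.sqrt_pos.2 hp0
  have hs2 : √(p : ℝ) * √(p : ℝ) = p := Real.mul_self_sqrt hp0.le
  have hC := D.C1
  have h1 := D.mean p hp h5
  have h2 := D.sq p hp h5
  rw [← ma_eq p] at h1
  rw [← ms_eq p] at h2
  obtain ⟨x, hx⟩ : ∃ x : ℝ, x = a p c := ⟨_, rfl⟩
  obtain ⟨k1, hk1⟩ : ∃ k : ℝ, k = kp t p := ⟨_, rfl⟩
  obtain ⟨k2, hk2⟩ : ∃ k : ℝ, k = kp (2 * t) p := ⟨_, rfl⟩
  have hk1b : |k1| ≤ 1 := hk1 ▸ kp_abs t p
  have hk2b : |k2| ≤ 1 := hk2 ▸ kp_abs (2 * t) p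
  have e1 : |k1 * (ma a p + r) / p| ≤ C * (1 / ((p : ℝ) * √p)) := by
    rw [abs_div, abs_mul, abs_of_pos hp0, div_le_iff₀ hp0]
    calc |k1| * |ma a p + r| ≤ 1 * (C / √p) := mul_le_mul hk1b h1 (abs_nonneg _) (by norm_num)
      _ = C * (1 / ((p : ℝ) * √p)) * p := by field_simp
  have e2 : |k2 * (ms a p - p) / (2 * p ^ 2)| ≤ C * (1 / ((p : ℝ) * √p)) := by
    rw [abs_div, abs_mul, abs_of_pos (by positivity : (0 : ℝ) < 2 * (p : ℝ) ^ 2), div_le_iff₀ (by positivity)]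
    calc |k2| * |ms a p - p| ≤ 1 * (C * √p) := mul_le_mul hk2b h2 (abs_nonneg _) (by norm_num)
      _ ≤ 2 * (C * √p) := by
          have : 0 ≤ C * √(p : ℝ) := by positivity
          linarith
      _ = C * (1 / ((p : ℝ) * √p)) * (2 * p ^ 2) := by
          field_simp
          rw [sq, hs2]
  have ekey : k1 / p * (x - ma a p) - r * (k1 / p) - 1 / 2 * (k2 / p) + k2 / (2 * p) * ((x ^ 2 - ms a p) / p) =
      (x * (k1 / p) + (x ^ 2 - 2 * p) * (k2 / (p : ℝ) ^ 2) / 2) - k1 * (ma a p + r) / p - k2 * (ms a p - p) / (2 * p ^ 2) := by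
    field_simp
    ring
  rw [← hk1, ← hk2, ← hx, ekey]
  by_cases hG : G p c
  · rw [if_pos hG, if_pos hG, zero_mul, mul_zero, zero_add]
    have h3 := eul_taylor hp5 (hx ▸ D.hasse p hp h5 c) (xx_norm hp.pos t)
    rw [xx_re hp.pos, xx_sq_re hp.pos, ← hk1, ← hk2] at h3
    have e3 : -Real.log ‖1 - (x : ℂ) * xx t p + (p : ℂ) * xx t p ^ 2‖ -
        ((x * (k1 / p) + (x ^ 2 - 2 * p) * (k2 / (p : ℝ) ^ 2) / 2) - k1 * (ma a p + r) / p - k2 * (ms a p - p) / (2 * p ^ 2)) =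
        -(Real.log ‖1 - (x : ℂ) * xx t p + ((p : ℝ) : ℂ) * xx t p ^ 2‖ + x * (k1 / p) + (x ^ 2 - 2 * p) * (k2 / (p : ℝ) ^ 2) / 2) +
          k1 * (ma a p + r) / p + k2 * (ms a p - p) / (2 * p ^ 2) := by
      push_cast
      ring
    rw [e3]
    refine (abs_add_le _ _).trans ?_
    refine (add_le_add (abs_add_le _ _) e2).trans ?_
    rw [abs_neg]
    have e4 : (2 : ℝ) / ((p : ℝ) * √p) = 2 * (1 / ((p : ℝ) * √p)) := by ring
    rw [e4] at h3
    linarith
  · rw [if_neg hG, if_neg hG, one_mul, zero_sub, abs_neg]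
    have hb := hx ▸ D.bad p hp h5 c hG
    have e3 : |x * (k1 / (p : ℝ))| ≤ 1 / (p : ℝ) := by
      rw [abs_mul, abs_div, abs_of_pos hp0]
      calc |x| * (|k1| / (p : ℝ)) ≤ 1 * (1 / (p : ℝ)) :=
            mul_le_mul hb (div_le_div_of_nonneg_right hk1b hp0.le) (by positivity) (by norm_num)
        _ = 1 / p := one_mul _
    have e4 : |(x ^ 2 - 2 * (p : ℝ)) * (k2 / (p : ℝ) ^ 2) / 2| ≤ 2 * (1 / (p : ℝ)) := by
      have h6 : |x ^ 2 - 2 * (p : ℝ)| ≤ 4 * (p : ℝ) := by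
        have h7 : x ^ 2 ≤ 1 := by
          rw [← sq_abs]
          exact pow_le_one₀ (abs_nonneg _) hb
        rw [abs_le]
        constructor <;> nlinarith [sq_nonneg x]
      rw [abs_div, abs_mul, abs_div, abs_of_pos (by positivity : (0 : ℝ) < (p : ℝ) ^ 2), abs_of_pos (by norm_num : (0 : ℝ) < 2)]
      calc |x ^ 2 - 2 * (p : ℝ)| * (|k2| / (p : ℝ) ^ 2) / 2 ≤ 4 * (p : ℝ) * (1 / (p : ℝ) ^ 2) / 2 := by
            refine div_le_div_of_nonneg_right ?_ (by norm_num)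
            exact mul_le_mul h6 (div_le_div_of_nonneg_right hk2b (by positivity)) (by positivity) (by positivity)
        _ = 2 * (1 / (p : ℝ)) := by
            field_simp
            norm_num
    have hpos : 0 ≤ 1 / ((p : ℝ) * √p) := by positivity
    refine (abs_sub _ _).trans ?_
    refine (add_le_add (abs_sub _ _) e2).trans ?_
    have := abs_add_le (x * (k1 / p)) ((x ^ 2 - 2 * p) * (k2 / (p : ℝ) ^ 2) / 2)
    linarith

/-- The centring. -/
noncomputable def cen (r : ℝ) (T : ℕ) (t : ℝ) : ℝ := if t = 0 then (r + 1 / 2) * Real.log (Real.log T) else 0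

theorem near_sum (D : Dat a G r C) (t : ℝ) : ∃ B : ℝ, 0 ≤ B ∧ ∀ (T : ℕ) (c : Fin n → ℤ), 3 ≤ T →
    |lel a G T t c + cen r T t - Sm a T t c| ≤ 3 * R1 G T c + |R2 a T t c| + B := by
  classical
  have hC := D.C1
  obtain ⟨C1, hC10, hC1⟩ := sum_three_half
  obtain ⟨B1, hB10, hB1⟩ : ∃ B1 : ℝ, 0 ≤ B1 ∧ ∀ T : ℕ, 3 ≤ T →
      |cen r T t - (r * ∑ p ∈ PP T, kp t p / p + 1 / 2 * ∑ p ∈ PP T, kp (2 * t) p / p)| ≤ B1 := by
    by_cases ht : t = 0
    · obtain ⟨B, hB0, hB⟩ := PP_inv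
      refine ⟨|r + 1 / 2| * B, by positivity, fun T hT => ?_⟩
      subst ht
      unfold cen
      rw [if_pos rfl, mul_zero]
      simp only [kp_zero]
      have e : (r + 1 / 2) * Real.log (Real.log T) - (r * ∑ p ∈ PP T, 1 / (p : ℝ) + 1 / 2 * ∑ p ∈ PP T, 1 / (p : ℝ)) =
          -((r + 1 / 2) * (∑ p ∈ PP T, 1 / (p : ℝ) - Real.log (Real.log T))) := by ring
      rw [e, abs_neg, abs_mul]
      exact mul_le_mul_of_nonneg_left (hB T hT) (abs_nonneg _)
    · obtain ⟨B, hB0, hB⟩ := PP_cos ht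
      obtain ⟨B', hB'0, hB'⟩ := PP_cos (t := 2 * t) (mul_ne_zero two_ne_zero ht)
      refine ⟨|r| * B + 1 / 2 * B', by positivity, fun T _ => ?_⟩
      unfold cen
      rw [if_neg ht, zero_sub, abs_neg]
      refine (abs_add_le _ _).trans ?_
      rw [abs_mul, abs_mul, abs_of_pos (by norm_num : (0 : ℝ) < 1 / 2)]
      exact add_le_add (mul_le_mul_of_nonneg_left (hB T) (abs_nonneg _)) (mul_le_mul_of_nonneg_left (hB' T) (by norm_num))
  refine ⟨(2 + 2 * C) * C1 + B1, by positivity, fun T c hT => ?_⟩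
  have h1 : |lel a G T t c - (Sm a T t c - r * ∑ p ∈ PP T, kp t p / p - 1 / 2 * ∑ p ∈ PP T, kp (2 * t) p / p + R2 a T t c)| ≤
      3 * R1 G T c + (2 + 2 * C) * C1 := by
    have e : lel a G T t c - (Sm a T t c - r * ∑ p ∈ PP T, kp t p / p - 1 / 2 * ∑ p ∈ PP T, kp (2 * t) p / p + R2 a T t c) =
        ∑ p ∈ PP T, ((if G p (red p c) then -Real.log ‖1 - (a p (red p c) : ℂ) * xx t p + (p : ℂ) * xx t p ^ 2‖ else 0) -
      (kp t p / p * (a p (red p c) - ma a p) - r * (kp t p / p) - 1 / 2 * (kp (2 * t) p / p) +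
        kp (2 * t) p / (2 * p) * ((a p (red p c) ^ 2 - ms a p) / p))) := by
      unfold lel Sm R2
      rw [Finset.sum_sub_distrib, Finset.sum_add_distrib, Finset.sum_sub_distrib, Finset.sum_sub_distrib,
        ← Finset.mul_sum, ← Finset.mul_sum]
    rw [e]
    refine (Finset.abs_sum_le_sum_abs _ _).trans ?_
    calc ∑ p ∈ PP T, |(if G p (red p c) then -Real.log ‖1 - (a p (red p c) : ℂ) * xx t p + (p : ℂ) * xx t p ^ 2‖ else 0) -
      (kp t p / p * (a p (red p c) - ma a p) - r * (kp t p / p) - 1 / 2 * (kp (2 * t) p / p) +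
        kp (2 * t) p / (2 * p) * ((a p (red p c) ^ 2 - ms a p) / p))| ≤
        ∑ p ∈ PP T, (3 * ((if G p (red p c) then (0 : ℝ) else 1) * (1 / p)) + (2 + 2 * C) * (1 / ((p : ℝ) * √p))) := by
          refine Finset.sum_le_sum fun p hp => ?_
          obtain ⟨_, hpp, h5⟩ := mem_PP.1 hp
          exact near_term D hpp h5 t (red p c)
      _ = 3 * R1 G T c + (2 + 2 * C) * ∑ p ∈ PP T, 1 / ((p : ℝ) * √p) := by
          unfold R1
          rw [Finset.sum_add_distrib, ← Finset.mul_sum, ← Finset.mul_sum]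
      _ ≤ _ := by
          have := hC1 (PP T)
          have h3 : (2 + 2 * C) * ∑ p ∈ PP T, 1 / ((p : ℝ) * √p) ≤ (2 + 2 * C) * C1 :=
            mul_le_mul_of_nonneg_left this (by linarith)
          linarith
  have h2 := hB1 T hT
  have e : lel a G T t c + cen r T t - Sm a T t c =
      (lel a G T t c - (Sm a T t c - r * ∑ p ∈ PP T, kp t p / p - 1 / 2 * ∑ p ∈ PP T, kp (2 * t) p / p + R2 a T t c)) +
      (cen r T t - (r * ∑ p ∈ PP T, kp t p / p + 1 / 2 * ∑ p ∈ PP T, kp (2 * t) p / p)) + R2 a T t c := by ring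
  rw [e]
  refine (abs_add_le _ _).trans ?_
  have h3 := (abs_add_le (lel a G T t c - (Sm a T t c - r * ∑ p ∈ PP T, kp t p / p - 1 / 2 * ∑ p ∈ PP T, kp (2 * t) p / p +
    R2 a T t c)) (cen r T t - (r * ∑ p ∈ PP T, kp t p / p + 1 / 2 * ∑ p ∈ PP T, kp (2 * t) p / p))).trans (add_le_add h1 h2)
  linarith

theorem R1_mean (D : Dat a G r C) : ∃ B : ℝ, 0 ≤ B ∧ ∀ T H : ℕ, T ≤ H → EB H (R1 G T) ≤ B := by
  classical
  have hC := D.C1
  obtain ⟨C1, hC10, hC1⟩ := sum_three_half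
  refine ⟨2 ^ (n + 1) * C * C1, by positivity, fun T H hTH => ?_⟩
  have e : R1 G T = fun c => ∑ p ∈ PP T, (if G p (red p c) then (0 : ℝ) else 1) * (1 / p) := by
    funext c
    unfold R1
    refine Finset.sum_congr rfl fun p _ => ?_
    congr
  rw [e, Pool.Agent.X280.BP.EB_sum]
  calc ∑ p ∈ PP T, EB H (fun c => (if G p (red p c) then (0 : ℝ) else 1) * (1 / p)) ≤
      ∑ p ∈ PP T, 2 ^ (n + 1) * C * (1 / ((p : ℝ) * √p)) := by
        refine Finset.sum_le_sum fun p hp => ?_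
        obtain ⟨hpT, hpp, h5⟩ := mem_PP.1 hp
        have hne : NeZero p := ⟨hpp.ne_zero⟩
        have hp0 : (0 : ℝ) < p := by exact_mod_cast hpp.pos
        have e1 : (fun c : Fin n → ℤ => (if G p (red p c) then (0 : ℝ) else 1) * (1 / p)) =
            fun c => (1 / (p : ℝ)) * (if G p (red p c) then (0 : ℝ) else 1) := by
          funext c
          ring
        rw [e1, Pool.Agent.X280.BP.EB_mul_left]
        have h1 := EB_local (H := H) (p := p) (by omega) (fun c => if G p c then (0 : ℝ) else 1) (fun c => by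
          split_ifs <;> norm_num)
        have h2 := D.few p hpp h5
        have h3 : EM p (fun c => if G p c then (0 : ℝ) else 1) ≤ C / √p := by
          refine le_trans (le_of_eq ?_) h2
          congr 1
        calc 1 / (p : ℝ) * EB H (fun c => if G p (red p c) then (0 : ℝ) else 1) ≤ 1 / (p : ℝ) * (2 ^ (n + 1) * (C / √p)) := by
              refine mul_le_mul_of_nonneg_left (h1.trans ?_) (by positivity)
              exact mul_le_mul_of_nonneg_left h3 (by positivity)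
          _ = 2 ^ (n + 1) * C * (1 / ((p : ℝ) * √p)) := by
              field_simp
    _ = 2 ^ (n + 1) * C * ∑ p ∈ PP T, 1 / ((p : ℝ) * √p) := by rw [← Finset.mul_sum]
    _ ≤ _ := mul_le_mul_of_nonneg_left (hC1 _) (by positivity)

theorem sq_four (D : Dat a G r C) {p : ℕ} (hp : p.Prime) (h5 : 5 ≤ p) (c : Fin n → ZMod p) : a p c ^ 2 ≤ 4 * p := by
  have hp0 : (0 : ℝ) < p := by exact_mod_cast hp.pos
  have h := D.hasse p hp h5 c
  rw [← sq_abs]
  calc |a p c| ^ 2 ≤ (2 * √p) ^ 2 := pow_le_pow_left₀ (abs_nonneg _) h 2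
    _ = 4 * p := by rw [mul_pow, Real.sq_sqrt hp0.le]; norm_num

theorem R2_mean (D : Dat a G r C) (t : ℝ) : ∃ B : ℝ, 0 ≤ B ∧ ∀ T H : ℕ, T ^ 4 ≤ H → EB H (fun c => R2 a T t c ^ 2) ≤ B := by
  classical
  obtain ⟨C1, hC10, hC1⟩ := sum_three_half
  refine ⟨2 ^ (n + 1) * 16 * (C1 + 1), by positivity, fun T H hTH => ?_⟩
  have hms : ∀ p : ℕ, p.Prime → 5 ≤ p → 0 ≤ ms a p ∧ ms a p ≤ 4 * p := by
    intro p hp h5
    have hne : NeZero p := ⟨hp.ne_zero⟩
    rw [ms_eq]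
    refine ⟨EM_nonneg' p _ fun c => sq_nonneg _, ?_⟩
    have h := Pool.Agent.X280.BP.EM_mono' p (fun c => a p c ^ 2) (fun _ => 4 * (p : ℝ)) fun c => sq_four D hp h5 c
    rwa [EM_const'] at h
  have h := EB_sq (n := n) (PP T) (fun p c => (a p c ^ 2 - ms a p) / p) (fun p => kp (2 * t) p / (2 * p)) (B := 16)
    (by norm_num) (y := T) (H := H) (fun p hp => ⟨(mem_PP.1 hp).2.1, (mem_PP.1 hp).1⟩) (fun p hp => by
      obtain ⟨_, hpp, h5⟩ := mem_PP.1 hp
      have hp5 : (5 : ℝ) ≤ p := by exact_mod_cast h5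
      rw [abs_div, abs_of_pos (by linarith : (0 : ℝ) < 2 * p), div_le_one (by linarith)]
      have := kp_abs (2 * t) p
      linarith) (fun p hp _ => by
      obtain ⟨_, hpp, h5⟩ := mem_PP.1 hp
      have e : (fun c => (a p c ^ 2 - ms a p) / p) = fun c => 1 / (p : ℝ) * (a p c ^ 2 - ms a p) := by
        funext c
        ring
      rw [e, Pool.Agent.X280.BP.EM_mul' p (1 / (p : ℝ)) (fun c => a p c ^ 2 - ms a p),
        Pool.Agent.X280.BP.EM_sub' p (fun c => a p c ^ 2) (fun _ => ms a p), EM_const', ms_eq, sub_self, mul_zero])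
    (fun p hp _ => by
      obtain ⟨_, hpp, h5⟩ := mem_PP.1 hp
      have hp0 : (0 : ℝ) < p := by exact_mod_cast hpp.pos
      have h1 := Pool.Agent.X280.BP.EM_mono' p (fun c => ((a p c ^ 2 - ms a p) / p) ^ 2) (fun _ => (16 : ℝ)) fun c => by
        have h2 := sq_four D hpp h5 c
        obtain ⟨h3, h4⟩ := hms p hpp h5
        have h5' : |(a p c ^ 2 - ms a p) / p| ≤ 4 := by
          rw [abs_div, abs_of_pos hp0, div_le_iff₀ hp0, abs_le]
          have := sq_nonneg (a p c)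
          constructor <;> linarith
        rw [← sq_abs]
        calc |(a p c ^ 2 - ms a p) / p| ^ 2 ≤ 4 ^ 2 := pow_le_pow_left₀ (abs_nonneg _) h5' 2
          _ = 16 := by norm_num
      rwa [EM_const'] at h1) hTH
  have e : (fun c => R2 a T t c ^ 2) = fun c => (∑ p ∈ PP T, kp (2 * t) p / (2 * p) * ((a p (red p c) ^ 2 - ms a p) / p)) ^ 2 := by
    funext c
    rfl
  rw [e]
  refine h.trans ?_
  refine mul_le_mul_of_nonneg_left ?_ (by positivity)
  have h2 : ∑ p ∈ PP T, (kp (2 * t) p / (2 * p)) ^ 2 ≤ C1 := by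
    refine le_trans (Finset.sum_le_sum fun p hp => ?_) (hC1 (PP T))
    obtain ⟨_, hpp, h5⟩ := mem_PP.1 hp
    have hp5 : (5 : ℝ) ≤ p := by exact_mod_cast h5
    have hp0 : (0 : ℝ) < p := by linarith
    have hsp : √(p : ℝ) ≤ p := by
      rw [Real.sqrt_le_left (by linarith)]
      nlinarith
    have hs0 : 0 < √(p : ℝ) := Real.sqrt_pos.2 hp0
    have h3 : kp (2 * t) p ^ 2 ≤ 1 := by
      rw [← sq_abs]
      exact pow_le_one₀ (abs_nonneg _) (kp_abs _ _)
    rw [div_pow, div_le_div_iff₀ (by positivity) (by positivity)]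
    calc kp (2 * t) p ^ 2 * ((p : ℝ) * √p) ≤ 1 * ((p : ℝ) * p) :=
          mul_le_mul h3 (mul_le_mul_of_nonneg_left hsp hp0.le) (by positivity) (by norm_num)
      _ ≤ 1 * (2 * (p : ℝ)) ^ 2 := by nlinarith
  linarith

end Pool.Agent.U62.SC
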