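import Pool.Agent.Q178.UM.PR

set_option autoImplicit false

/-!
# Mertens with `cos (u log p)` and zeta near the 1-line

The first part is the file `Pool.Agent.Q149.UM.MZ` of helper149 (copied, with its statement in full, for a smaller import).
-/

namespace Pool.Agent.U62.SC.MZ

open Complex Filter

noncomputable section

/-- the point `1 + a + iu` -/
def sp (a u : ℝ) : ℂ := 1 + (a : ℂ) + u * I

theorem sp_re (a u : ℝ) : (sp a u).re = 1 + a := by simp [sp]

theorem sp_im (a u : ℝ) : (sp a u).im = u := by simp [sp]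

theorem zp_eq (a u : ℝ) (p : ℕ) (hp : 0 < p) : (p : ℂ) ^ (-(sp a u)) =
    cexp (((-(1 + a) * Real.log p : ℝ) : ℂ) + ((-(u * Real.log p) : ℝ) : ℂ) * I) := by
  have h0 : (p : ℂ) ≠ 0 := by exact_mod_cast hp.ne'
  rw [Complex.cpow_def_of_ne_zero h0]
  congr 1
  have : Complex.log (p : ℂ) = ((Real.log p : ℝ) : ℂ) := by
    rw [Complex.natCast_log]
  rw [this]
  unfold sp
  push_cast
  ring

theorem exp_neg_eq (a : ℝ) (p : ℕ) (hp : 0 < p) :
    Real.exp (-(1 + a) * Real.log p) = 1 / p * Real.exp (-(a * Real.log p)) := by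
  have h0 : (0 : ℝ) < p := by exact_mod_cast hp
  rw [show -(1 + a) * Real.log p = -Real.log p + -(a * Real.log p) by ring, Real.exp_add,
    Real.exp_neg, Real.exp_log h0, one_div]

theorem re_aux (x y : ℝ) : ((x : ℂ) + (y : ℂ) * I).re = x := by simp

theorem im_aux (x y : ℝ) : ((x : ℂ) + (y : ℂ) * I).im = y := by simp

theorem norm_zp' (a u : ℝ) (p : ℕ) (hp : 0 < p) : ‖(p : ℂ) ^ (-(sp a u))‖ =
    1 / p * Real.exp (-(a * Real.log p)) := by
  rw [zp_eq a u p hp, Complex.norm_exp, ← exp_neg_eq a p hp, re_aux]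

theorem re_zp' (a u : ℝ) (p : ℕ) (hp : 0 < p) : ((p : ℂ) ^ (-(sp a u))).re =
    1 / p * Real.exp (-(a * Real.log p)) * Real.cos (u * Real.log p) := by
  rw [zp_eq a u p hp, Complex.exp_re, ← exp_neg_eq a p hp, re_aux, im_aux, Real.cos_neg]

/-- the bound for one factor -/
theorem factor_bound (a u : ℝ) (ha : 0 ≤ a) (p : ℕ) (hp : p.Prime) :
    |(-Real.log ‖1 - (p : ℂ) ^ (-(sp a u))‖) -
      1 / p * Real.exp (-(a * Real.log p)) * Real.cos (u * Real.log p)| ≤ 1 / (p : ℝ) ^ 2 := by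
  set z := (p : ℂ) ^ (-(sp a u)) with hz
  have hp2 : (2 : ℝ) ≤ p := by exact_mod_cast hp.two_le
  have hp0 : (0 : ℝ) < p := by linarith
  have hn : ‖z‖ ≤ 1 / p := by
    rw [hz, norm_zp' a u p hp.pos]
    have h1 : Real.exp (-(a * Real.log p)) ≤ 1 := by
      rw [Real.exp_le_one_iff]
      have := mul_nonneg ha (Real.log_natCast_nonneg p)
      linarith
    calc 1 / (p : ℝ) * Real.exp (-(a * Real.log p)) ≤ 1 / (p : ℝ) * 1 :=
          mul_le_mul_of_nonneg_left h1 (by positivity)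
      _ = 1 / p := mul_one _
  have hn2 : ‖z‖ ≤ 1 / 2 := hn.trans (one_div_le_one_div_of_le (by norm_num) hp2)
  have h1 := Complex.norm_log_one_add_sub_self_le (z := -z) (by rw [norm_neg]; linarith)
  rw [norm_neg, ← sub_eq_add_neg] at h1
  have h3 := Complex.abs_re_le_norm (log (1 - z) - -z)
  have h4 : (log (1 - z) - -z).re = -((-Real.log ‖1 - z‖) - z.re) := by
    rw [Complex.sub_re, Complex.log_re, Complex.neg_re]
    ring
  rw [h4, abs_neg] at h3
  rw [← re_zp' a u p hp.pos, ← hz]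
  refine h3.trans (h1.trans ?_)
  have h5 : (1 - ‖z‖)⁻¹ ≤ 2 := by
    rw [inv_le_comm₀ (by linarith) (by norm_num)]
    linarith
  have h6 : ‖z‖ ^ 2 ≤ (1 / (p : ℝ)) ^ 2 := pow_le_pow_left₀ (norm_nonneg _) hn 2
  have h7 : ‖z‖ ^ 2 * (1 - ‖z‖)⁻¹ ≤ ‖z‖ ^ 2 * 2 := mul_le_mul_of_nonneg_left h5 (by positivity)
  calc ‖z‖ ^ 2 * (1 - ‖z‖)⁻¹ / 2 ≤ ‖z‖ ^ 2 := by linarith
    _ ≤ (1 / (p : ℝ)) ^ 2 := h6
    _ = 1 / (p : ℝ) ^ 2 := by rw [div_pow, one_pow]

theorem log_zeta (a u : ℝ) (ha : 0 < a) :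
    (Summable fun p : Nat.Primes => -Real.log ‖1 - ((p : ℕ) : ℂ) ^ (-(sp a u))‖) ∧
    Real.log ‖riemannZeta (sp a u)‖ =
      ∑' p : Nat.Primes, -Real.log ‖1 - ((p : ℕ) : ℂ) ^ (-(sp a u))‖ := by
  have hs : 1 < (sp a u).re := by rw [sp_re]; linarith
  have h1 := riemannZeta_eulerProduct_exp_log hs
  have hsum : Summable fun p : Nat.Primes => -Complex.log (1 - ((p : ℕ) : ℂ) ^ (-(sp a u))) := by
    have hb : ∀ p : Nat.Primes, ‖((p : ℕ) : ℂ) ^ (-(sp a u))‖ ≤ ((p : ℕ) : ℝ) ^ (-(sp a u)).re := by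
      intro p
      rw [Complex.norm_natCast_cpow_of_pos p.2.pos]
    refine (Nat.Primes.summable_rpow.mpr ?_).of_nonneg_of_le (fun _ => norm_nonneg _) hb
      |>.of_norm.clog_one_sub.neg
    rw [Complex.neg_re]
    linarith
  have hre : ∀ p : Nat.Primes, (-Complex.log (1 - ((p : ℕ) : ℂ) ^ (-(sp a u)))).re =
      -Real.log ‖1 - ((p : ℕ) : ℂ) ^ (-(sp a u))‖ := by
    intro p
    rw [Complex.neg_re, Complex.log_re]
  refine ⟨?_, ?_⟩
  · have := Complex.reCLM.summable hsum
    refine this.congr (fun p => ?_)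
    exact hre p
  · rw [← h1, Complex.norm_exp, Real.log_exp, Complex.re_tsum hsum]
    exact tsum_congr hre

/-- comparison of weights -/
theorem weight (δ x : ℝ) (hδ : 0 < δ) (hδ1 : δ ≤ 1) (hx : 0 < x) :
    |(if x ≤ δ then 1 else 0) - Real.exp (-x)| ≤ 1 / δ * min x (1 / √x) := by
  have hd : 1 ≤ 1 / δ := by
    rw [le_div_iff₀ hδ]
    linarith
  by_cases h : x ≤ δ
  · rw [if_pos h]
    have h1 : Real.exp (-x) ≤ 1 := by
      rw [Real.exp_le_one_iff]
      linarith
    have h2 : 1 - x ≤ Real.exp (-x) := by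
      have := Real.add_one_le_exp (-x)
      linarith
    rw [abs_of_nonneg (by linarith)]
    have h3 : x ≤ 1 / √x := by
      have hs : √x ≤ 1 := by
        rw [Real.sqrt_le_one]
        linarith
      have hs0 : 0 < √x := Real.sqrt_pos.2 hx
      have : 1 ≤ 1 / √x := by
        rw [le_div_iff₀ hs0]
        linarith
      linarith
    rw [min_eq_left h3]
    nlinarith
  · rw [if_neg h]
    rw [zero_sub, abs_neg, abs_of_pos (Real.exp_pos _)]
    have hx' : δ < x := not_le.1 h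
    by_cases h1 : x ≤ 1
    · have h3 : x ≤ 1 / √x := by
        have hs : √x ≤ 1 := by
          rw [Real.sqrt_le_one]
          linarith
        have hs0 : 0 < √x := Real.sqrt_pos.2 hx
        have : 1 ≤ 1 / √x := by
          rw [le_div_iff₀ hs0]
          linarith
        linarith
      rw [min_eq_left h3]
      have h2 : Real.exp (-x) ≤ 1 := by
        rw [Real.exp_le_one_iff]
        linarith
      have h4 : 1 ≤ 1 / δ * x := by
        rw [one_div, ← div_eq_inv_mul, le_div_iff₀ hδ]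
        linarith
      linarith
    · have hx1 : 1 < x := not_le.1 h1
      have hs1 : 1 ≤ √x := by
        rw [Real.one_le_sqrt]
        linarith
      have hs0 : 0 < √x := by linarith
      have hsx : √x ≤ x := by
        have := Real.mul_self_sqrt hx.le
        nlinarith
      have h3 : 1 / √x ≤ x := by
        rw [div_le_iff₀ hs0]
        nlinarith
      rw [min_eq_right h3]
      have h2 : Real.exp (-x) ≤ 1 / x := by
        rw [Real.exp_neg, ← one_div]
        apply one_div_le_one_div_of_le hx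
        have := Real.add_one_le_exp x
        linarith
      have h4 : 1 / x ≤ 1 / √x := one_div_le_one_div_of_le hs0 hsx
      have h5 : 0 < 1 / √x := by positivity
      nlinarith

theorem t_MZ : ∀ δ : ℝ, 0 < δ → δ ≤ 1 → ∃ C : ℝ, ∀ᶠ T : ℝ in atTop, ∀ u : ℝ,
    |(∑ p ∈ (Finset.Icc 1 ⌊T ^ δ⌋₊).filter Nat.Prime, Real.cos (u * Real.log p) / p) -
      Real.log ‖riemannZeta (1 + 1 / Real.log T + u * I)‖| ≤ C := by
  intro δ hδ hδ1
  obtain ⟨B, hB1, hB⟩ := Pool.Agent.Q178.UM.PR.main_sum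
  refine ⟨1 / δ * B + ∑' n : ℕ, 1 / (n : ℝ) ^ 2, ?_⟩
  filter_upwards [eventually_gt_atTop (Real.exp 1)] with T hT u
  have hT0 : 0 < T := (Real.exp_pos 1).trans hT
  have hL : 1 < Real.log T := by
    rw [← Real.log_exp 1]
    exact Real.log_lt_log (Real.exp_pos 1) hT
  set L := Real.log T with hLdef
  have hL0 : 0 < L := by linarith
  set a := 1 / L with ha
  have ha0 : 0 < a := by positivity
  have hsp : (1 + 1 / (L : ℂ) + u * I) = sp a u := by
    unfold sp
    rw [ha]
    push_cast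
    ring
  rw [hsp]
  obtain ⟨hsum, hlog⟩ := log_zeta a u ha0
  rw [hlog]
  -- the finite sum as a sum over the primes
  set F : Nat.Primes → ℝ := fun p => if a * Real.log (p : ℕ) ≤ δ then
    Real.cos (u * Real.log (p : ℕ)) / (p : ℕ) else 0 with hF
  have hmem : ∀ p : ℕ, p.Prime → (p ≤ ⌊T ^ δ⌋₊ ↔ a * Real.log p ≤ δ) := by
    intro p hp
    have hp0 : (0 : ℝ) < p := by exact_mod_cast hp.pos
    rw [Nat.le_floor_iff (by positivity), ← Real.log_le_log_iff hp0 (by positivity),
      Real.log_rpow hT0, ha, one_div, ← div_eq_inv_mul, div_le_iff₀ hL0]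
  set S₀ : Finset Nat.Primes := (Finset.Icc 1 ⌊T ^ δ⌋₊).subtype Nat.Prime with hS₀
  have hS : ∀ p : Nat.Primes, p ∈ S₀ ↔ a * Real.log (p : ℕ) ≤ δ := by
    intro p
    rw [← hmem p p.2]
    constructor
    · intro h
      exact (Finset.mem_Icc.1 (Finset.mem_subtype.1 h)).2
    · intro h
      exact Finset.mem_subtype.2 (Finset.mem_Icc.2 ⟨p.2.one_le, h⟩)
  have hF0 : ∀ p : Nat.Primes, p ∉ S₀ → F p = 0 := by
    intro p hp
    simp only [hF]
    rw [if_neg]
    intro h
    exact hp ((hS p).2 h)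
  have hFs : Summable F := summable_of_ne_finset_zero hF0
  have hfin : (∑ p ∈ (Finset.Icc 1 ⌊T ^ δ⌋₊).filter Nat.Prime, Real.cos (u * Real.log p) / p) =
      ∑' p : Nat.Primes, F p := by
    rw [tsum_eq_sum (f := F) (s := S₀) hF0, ← Finset.sum_subtype_eq_sum_filter]
    apply Finset.sum_congr rfl
    intro p hp
    simp only [hF]
    rw [if_pos ((hS p).1 hp)]
  rw [hfin, ← hFs.tsum_sub hsum]
  -- the bound
  set h : Nat.Primes → ℝ := fun p => 1 / δ * (min (a * Real.log (p : ℕ))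
    (1 / √(a * Real.log (p : ℕ))) / (p : ℕ)) + 1 / ((p : ℕ) : ℝ) ^ 2 with hh
  have hbound : ∀ p : Nat.Primes,
      ‖F p - -Real.log ‖1 - ((p : ℕ) : ℂ) ^ (-(sp a u))‖‖ ≤ h p := by
    intro p
    have hp0 : (0 : ℝ) < (p : ℕ) := by exact_mod_cast p.2.pos
    have hx : 0 < a * Real.log (p : ℕ) :=
      mul_pos ha0 (Real.log_pos (by exact_mod_cast p.2.one_lt))
    have e1 := factor_bound a u ha0.le p p.2
    have e2 := weight δ (a * Real.log (p : ℕ)) hδ hδ1 hx
    have e3 : F p = (if a * Real.log (p : ℕ) ≤ δ then 1 else 0) *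
        (Real.cos (u * Real.log (p : ℕ)) / (p : ℕ)) := by
      simp only [hF]
      split_ifs <;> simp
    have e4 : |F p - 1 / ((p : ℕ) : ℝ) * Real.exp (-(a * Real.log (p : ℕ))) *
        Real.cos (u * Real.log (p : ℕ))| ≤ 1 / δ * (min (a * Real.log (p : ℕ))
        (1 / √(a * Real.log (p : ℕ))) / (p : ℕ)) := by
      have e5 : F p - 1 / ((p : ℕ) : ℝ) * Real.exp (-(a * Real.log (p : ℕ))) *
          Real.cos (u * Real.log (p : ℕ)) =
          ((if a * Real.log (p : ℕ) ≤ δ then 1 else 0) - Real.exp (-(a * Real.log (p : ℕ)))) *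
            (Real.cos (u * Real.log (p : ℕ)) / (p : ℕ)) := by
        rw [e3]
        ring
      rw [e5, abs_mul]
      have e6 : |Real.cos (u * Real.log (p : ℕ)) / ((p : ℕ) : ℝ)| ≤ 1 / (p : ℕ) := by
        rw [abs_div, abs_of_pos hp0]
        exact div_le_div_of_nonneg_right (Real.abs_cos_le_one _) hp0.le
      calc _ ≤ (1 / δ * min (a * Real.log (p : ℕ)) (1 / √(a * Real.log (p : ℕ)))) *
            (1 / (p : ℕ)) := mul_le_mul e2 e6 (abs_nonneg _) (by positivity)
        _ = _ := by ring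
    rw [Real.norm_eq_abs]
    simp only [hh]
    rw [abs_le] at e1 e4 ⊢
    constructor <;> linarith [e1.1, e1.2, e4.1, e4.2]
  have hh0 : ∀ p, 0 ≤ h p := fun p => (norm_nonneg _).trans (hbound p)
  have hsq : Summable (fun n : ℕ => 1 / (n : ℝ) ^ 2) := Real.summable_one_div_nat_pow.2 (by norm_num)
  have hfinb : ∀ S : Finset Nat.Primes, ∑ p ∈ S, h p ≤ 1 / δ * B + ∑' n : ℕ, 1 / (n : ℝ) ^ 2 := by
    intro S
    simp only [hh]
    rw [Finset.sum_add_distrib, ← Finset.mul_sum]
    have hinj : Set.InjOn (fun p : Nat.Primes => (p : ℕ)) S := fun x _ y _ hxy => Subtype.ext hxy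
    have f1 : ∑ p ∈ S, (min (a * Real.log (p : ℕ)) (1 / √(a * Real.log (p : ℕ))) / (p : ℕ)) =
        ∑ p ∈ S.image (fun p : Nat.Primes => (p : ℕ)),
          min (a * Real.log p) (1 / √(a * Real.log p)) / p := by
      rw [Finset.sum_image hinj]
    have f2 : ∑ p ∈ S, 1 / ((p : ℕ) : ℝ) ^ 2 =
        ∑ p ∈ S.image (fun p : Nat.Primes => (p : ℕ)), 1 / (p : ℝ) ^ 2 := by
      rw [Finset.sum_image hinj]
    rw [f1, f2]
    have f3 := hB a (S.image (fun p : Nat.Primes => (p : ℕ))) ha0 (by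
      intro p hp
      obtain ⟨q, _, rfl⟩ := Finset.mem_image.1 hp
      exact q.2)
    have f4 := Summable.sum_le_tsum (S.image (fun p : Nat.Primes => (p : ℕ)))
      (fun n _ => by positivity) hsq
    exact add_le_add (mul_le_mul_of_nonneg_left f3 (by positivity)) f4
  have hhs : Summable h := summable_of_sum_le hh0 hfinb
  have h1 := tsum_of_norm_bounded hhs.hasSum hbound
  rw [Real.norm_eq_abs] at h1
  exact h1.trans (hhs.tsum_le_of_sum_le hfinb)

/-- The sums of `cos (u log p) / p` are bounded for `u ≠ 0`. -/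
theorem cos_bdd {u : ℝ} (hu : u ≠ 0) : ∃ C : ℝ, 0 ≤ C ∧ ∀ N : ℕ,
    |∑ p ∈ (Finset.range (N + 1)).filter Nat.Prime, Real.cos (u * Real.log p) / p| ≤ C := by
  obtain ⟨C, hC⟩ := t_MZ 1 one_pos le_rfl
  have hne : (1 : ℂ) + u * I ≠ 1 := by
    intro h
    have h1 := congrArg Complex.im h
    simp at h1
    exact hu h1
  have hz : riemannZeta (1 + u * I) ≠ 0 := riemannZeta_ne_zero_of_one_le_re (by simp)
  have hT : Tendsto (fun T : ℝ => (1 : ℂ) + 1 / Real.log T + u * I) atTop (nhds (1 + u * I)) := by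
    have h1 : Tendsto (fun T : ℝ => 1 / Real.log T) atTop (nhds 0) := by
      simp only [one_div]
      exact Real.tendsto_log_atTop.inv_tendsto_atTop
    have h2 : Tendsto (fun T : ℝ => ((1 / Real.log T : ℝ) : ℂ)) atTop (nhds ((0 : ℝ) : ℂ)) :=
      (Complex.continuous_ofReal.tendsto 0).comp h1
    have h3 := (h2.const_add (1 : ℂ)).add_const ((u : ℂ) * I)
    simp only [Complex.ofReal_zero, add_zero] at h3
    refine h3.congr fun T => ?_
    push_cast
    rfl
  have hcont : Tendsto (fun T : ℝ => Real.log ‖riemannZeta (1 + 1 / Real.log T + u * I)‖) atTop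
      (nhds (Real.log ‖riemannZeta (1 + u * I)‖)) := by
    have h1 : ContinuousAt riemannZeta (1 + u * I) := (differentiableAt_riemannZeta hne).continuousAt
    have h2 := (h1.norm.tendsto.comp hT)
    exact (Real.continuousAt_log (norm_ne_zero_iff.2 hz)).tendsto.comp h2
  have hev : ∀ᶠ T : ℝ in atTop, |Real.log ‖riemannZeta (1 + 1 / Real.log T + u * I)‖| ≤
      |Real.log ‖riemannZeta (1 + u * I)‖| + 1 := by
    have h1 := hcont.abs
    exact h1.eventually_le_const (by linarith)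
  have hN : ∀ᶠ N : ℕ in atTop, |∑ p ∈ (Finset.range (N + 1)).filter Nat.Prime, Real.cos (u * Real.log p) / p| ≤
      C + (|Real.log ‖riemannZeta (1 + u * I)‖| + 1) := by
    filter_upwards [tendsto_natCast_atTop_atTop.eventually (hC.and hev)] with N hN
    obtain ⟨h1, h2⟩ := hN
    have h3 := h1 u
    rw [Real.rpow_one, Nat.floor_natCast] at h3
    have e : (Finset.Icc 1 N).filter Nat.Prime = (Finset.range (N + 1)).filter Nat.Prime := by
      ext p
      simp only [Finset.mem_filter, Finset.mem_Icc, Finset.mem_range]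
      constructor
      · rintro ⟨⟨_, h⟩, hp⟩
        exact ⟨by omega, hp⟩
      · rintro ⟨h, hp⟩
        exact ⟨⟨hp.one_lt.le, by omega⟩, hp⟩
    rw [e] at h3
    have e2 : ∑ p ∈ (Finset.range (N + 1)).filter Nat.Prime, Real.cos (u * Real.log p) / p =
        (∑ p ∈ (Finset.range (N + 1)).filter Nat.Prime, Real.cos (u * Real.log p) / p -
          Real.log ‖riemannZeta (1 + 1 / Real.log N + u * I)‖) +
        Real.log ‖riemannZeta (1 + 1 / Real.log N + u * I)‖ := by ring
    rw [e2]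
    exact (abs_add_le _ _).trans (add_le_add h3 h2)
  obtain ⟨N0, hN0⟩ := eventually_atTop.1 hN
  obtain ⟨S, hS⟩ : ∃ S : ℕ → ℝ, S = fun N => |∑ p ∈ (Finset.range (N + 1)).filter Nat.Prime, Real.cos (u * Real.log p) / p| :=
    ⟨_, rfl⟩
  have hS0 : ∀ N, 0 ≤ S N := fun N => by rw [hS]; exact abs_nonneg _
  refine ⟨|C| + (|Real.log ‖riemannZeta (1 + u * I)‖| + 1) + ∑ n ∈ Finset.range N0, S n, ?_, fun N => ?_⟩
  · have := Finset.sum_nonneg (s := Finset.range N0) fun n _ => hS0 n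
    positivity
  · have h1 := Finset.sum_nonneg (s := Finset.range N0) fun n _ => hS0 n
    have h2 := le_abs_self C
    rcases le_or_gt N0 N with h | h
    · have := hN0 N h
      linarith
    · have h3 : S N ≤ ∑ n ∈ Finset.range N0, S n :=
        Finset.single_le_sum (f := S) (fun n _ => hS0 n) (Finset.mem_range.2 h)
      have h4 : |∑ p ∈ (Finset.range (N + 1)).filter Nat.Prime, Real.cos (u * Real.log p) / p| = S N := by rw [hS]
      rw [h4]
      have := abs_nonneg C
      have := abs_nonneg (Real.log ‖riemannZeta (1 + u * I)‖)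
      linarith

end

end Pool.Agent.U62.SC.MZ
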