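import Mathlib

/-!
# The logarithm of an Euler factor on the critical line
-/

set_option autoImplicit false

namespace Pool.Agent.U62.SC

open Complex

theorem logTaylor_three (z : ℂ) : logTaylor 3 z = z - z ^ 2 / 2 := by
  simp only [logTaylor_succ, logTaylor_zero, Pi.add_apply]
  norm_num
  ring

theorem log_one_sub {w : ℂ} (hw : ‖w‖ ≤ 1 / 2) : |Real.log ‖1 - w‖ + w.re + (w ^ 2).re / 2| ≤ ‖w‖ ^ 3 := by
  have hw1 : ‖-w‖ < 1 := by rw [norm_neg]; linarith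
  have h := norm_log_sub_logTaylor_le 2 hw1
  rw [logTaylor_three, norm_neg] at h
  have e1 : (log (1 + -w) - (-w - (-w) ^ 2 / 2)).re = Real.log ‖1 - w‖ + w.re + (w ^ 2).re / 2 := by
    rw [← sub_eq_add_neg, sub_re, sub_re, log_re, neg_re, neg_sq]
    have : (w ^ 2 / 2 : ℂ).re = (w ^ 2).re / 2 := by
      rw [show (w ^ 2 / 2 : ℂ) = w ^ 2 / ((2 : ℝ) : ℂ) by norm_num, div_ofReal_re]
    rw [this]
    ring
  rw [← e1]
  refine (abs_re_le_norm _).trans (h.trans ?_)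
  have h1 : (1 - ‖w‖)⁻¹ ≤ 2 := by
    rw [inv_le_comm₀ (by linarith) (by norm_num)]
    norm_num
    linarith
  have h0 : 0 ≤ ‖w‖ ^ 3 := by positivity
  norm_num
  have h2 : ‖w‖ ^ 3 * (1 - ‖w‖)⁻¹ ≤ ‖w‖ ^ 3 * 2 := mul_le_mul_of_nonneg_left h1 h0
  linarith

/-- The logarithm of an Euler factor. -/
theorem eul_taylor {q a : ℝ} (hq : 5 ≤ q) (ha : |a| ≤ 2 * √q) {x : ℂ} (hx : ‖x‖ = 1 / q) :
    |Real.log ‖1 - (a : ℂ) * x + (q : ℂ) * x ^ 2‖ + a * x.re + (a ^ 2 - 2 * q) * (x ^ 2).re / 2| ≤ 2 / (q * √q) := by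
  have hq0 : 0 < q := by linarith
  have hs0 : 0 < √q := Real.sqrt_pos.2 hq0
  have hs2 : √q * √q = q := Real.mul_self_sqrt hq0.le
  have hs : 2 ≤ √q := by
    apply Real.le_sqrt_of_sq_le
    linarith
  obtain ⟨y, hy⟩ : ∃ y : ℝ, y = a / (2 * √q) := ⟨_, rfl⟩
  have hy1 : |y| ≤ 1 := by
    rw [hy, abs_div, abs_of_pos (by positivity : (0 : ℝ) < 2 * √q), div_le_one (by positivity)]
    exact ha
  have hy2 : y ^ 2 ≤ 1 := by
    rw [← sq_abs]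
    exact pow_le_one₀ (abs_nonneg _) hy1
  obtain ⟨ζ, hζ⟩ : ∃ ζ : ℂ, ζ = (y : ℂ) + (√(1 - y ^ 2) : ℝ) * I := ⟨_, rfl⟩
  obtain ⟨η, hη⟩ : ∃ η : ℂ, η = (y : ℂ) - (√(1 - y ^ 2) : ℝ) * I := ⟨_, rfl⟩
  have hr2 : √(1 - y ^ 2) ^ 2 = 1 - y ^ 2 := Real.sq_sqrt (by linarith)
  have hζn : ‖ζ‖ = 1 := by
    have h1 : ‖ζ‖ ^ 2 = 1 := by
      rw [hζ, ← normSq_eq_norm_sq, normSq_add_mul_I, hr2]
      ring
    have h2 := norm_nonneg ζ
    nlinarith
  have hηn : ‖η‖ = 1 := by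
    have h1 : ‖η‖ ^ 2 = 1 := by
      have e : η = (y : ℂ) + ((-√(1 - y ^ 2) : ℝ) : ℂ) * I := by
        rw [hη]
        push_cast
        ring
      rw [e, ← normSq_eq_norm_sq, normSq_add_mul_I, neg_sq, hr2]
      ring
    have h2 := norm_nonneg η
    nlinarith
  have hprod : ζ * η = 1 := by
    have h1 : ζ * η = ((y ^ 2 + √(1 - y ^ 2) ^ 2 : ℝ) : ℂ) := by
      rw [hζ, hη]
      push_cast
      ring_nf
      rw [I_sq]
      ring
    rw [h1, hr2]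
    norm_num
  have hsum : ζ + η = 2 * (y : ℂ) := by
    rw [hζ, hη]
    ring
  obtain ⟨z, hz⟩ : ∃ z : ℂ, z = ((√q : ℝ) : ℂ) * x := ⟨_, rfl⟩
  have hzn : ‖z‖ = 1 / √q := by
    rw [hz, norm_mul, hx, norm_real, Real.norm_of_nonneg hs0.le]
    rw [mul_one_div, div_eq_div_iff hq0.ne' hs0.ne']
    linarith
  have hzle : ‖z‖ ≤ 1 / 2 := by
    rw [hzn]
    exact one_div_le_one_div_of_le (by norm_num) hs
  have h1n : ‖ζ * z‖ = 1 / √q := by rw [norm_mul, hζn, one_mul, hzn]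
  have h2n : ‖η * z‖ = 1 / √q := by rw [norm_mul, hηn, one_mul, hzn]
  have hzz : z ^ 2 = (q : ℂ) * x ^ 2 := by
    rw [hz, mul_pow]
    congr 1
    rw [← ofReal_pow, sq, hs2]
  have hww : ζ * z + η * z = (a : ℂ) * x := by
    rw [← add_mul, hsum, hz, hy]
    have hsc : ((√q : ℝ) : ℂ) ≠ 0 := by exact_mod_cast hs0.ne'
    push_cast
    field_simp
  have hfac : 1 - (a : ℂ) * x + (q : ℂ) * x ^ 2 = (1 - ζ * z) * (1 - η * z) := by
    rw [← hww, ← hzz]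
    have : (1 - ζ * z) * (1 - η * z) = 1 - (ζ * z + η * z) + (ζ * η) * z ^ 2 := by ring
    rw [this, hprod, one_mul]
  have hsq : (ζ * z) ^ 2 + (η * z) ^ 2 = ((a ^ 2 - 2 * q : ℝ) : ℂ) * x ^ 2 := by
    have h1 : (ζ * z) ^ 2 + (η * z) ^ 2 = (ζ * z + η * z) ^ 2 - 2 * (ζ * η) * z ^ 2 := by ring
    rw [h1, hww, hprod, hzz]
    push_cast
    ring
  have hn1 : ‖1 - ζ * z‖ ≠ 0 := by
    rw [norm_ne_zero_iff, sub_ne_zero]
    intro h
    have h1 := congrArg norm h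
    rw [norm_one, h1n, ← hzn] at h1
    linarith
  have hn2 : ‖1 - η * z‖ ≠ 0 := by
    rw [norm_ne_zero_iff, sub_ne_zero]
    intro h
    have h1 := congrArg norm h
    rw [norm_one, h2n, ← hzn] at h1
    linarith
  rw [hfac, norm_mul, Real.log_mul hn1 hn2]
  have t1 := log_one_sub (w := ζ * z) (by rw [h1n, ← hzn]; exact hzle)
  have t2 := log_one_sub (w := η * z) (by rw [h2n, ← hzn]; exact hzle)
  rw [h1n] at t1
  rw [h2n] at t2
  have e1 : (ζ * z).re + (η * z).re = a * x.re := by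
    rw [← add_re, hww, re_ofReal_mul]
  have e2 : ((ζ * z) ^ 2).re + ((η * z) ^ 2).re = (a ^ 2 - 2 * q) * (x ^ 2).re := by
    rw [← add_re, hsq, re_ofReal_mul]
  have e3 : (1 / √q) ^ 3 = 1 / (q * √q) := by
    rw [div_pow, one_pow]
    congr 1
    calc √q ^ 3 = (√q * √q) * √q := by ring
      _ = q * √q := by rw [hs2]
  rw [e3] at t1 t2
  have e4 : Real.log ‖1 - ζ * z‖ + Real.log ‖1 - η * z‖ + a * x.re + (a ^ 2 - 2 * q) * (x ^ 2).re / 2 =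
      (Real.log ‖1 - ζ * z‖ + (ζ * z).re + ((ζ * z) ^ 2).re / 2) +
      (Real.log ‖1 - η * z‖ + (η * z).re + ((η * z) ^ 2).re / 2) := by
    rw [← e1, ← e2]
    ring
  rw [e4]
  refine (abs_add_le _ _).trans ((add_le_add t1 t2).trans (le_of_eq ?_))
  ring

end Pool.Agent.U62.SC
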