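import Pool.Agent.U62.SC.MZ
import Pool.Agent.U62.SC.Tay
import Pool.Agent.U62.RB.Gen3
import Pool.Agent.X280.BP.Final

/-!
# Partial Euler products on the critical line: preparations
-/

set_option autoImplicit false
set_option linter.unusedSectionVars false

namespace Pool.Agent.U62.SC

open Finset Pool.Agent.X280.BP
open Pool.Agent.Y722.HS (EM EB red)

/-- The primes `5 ≤ p ≤ T`. -/
def PP (T : ℕ) : Finset ℕ := (range (T + 1)).filter fun p => p.Prime ∧ 5 ≤ p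

theorem mem_PP {T p : ℕ} : p ∈ PP T ↔ p ≤ T ∧ p.Prime ∧ 5 ≤ p := by
  unfold PP
  rw [Finset.mem_filter, Finset.mem_range]
  constructor
  · rintro ⟨h1, h2⟩
    exact ⟨by omega, h2⟩
  · rintro ⟨h1, h2⟩
    exact ⟨by omega, h2⟩

/-- The cosines. -/
noncomputable def kp (t : ℝ) (p : ℕ) : ℝ := Real.cos (t * Real.log p)

theorem kp_abs (t : ℝ) (p : ℕ) : |kp t p| ≤ 1 := Real.abs_cos_le_one _

theorem kp_zero (p : ℕ) : kp 0 p = 1 := by
  unfold kp
  rw [zero_mul, Real.cos_zero]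

/-- `p ^ (-(1 + i t))`. -/
noncomputable def xx (t : ℝ) (p : ℕ) : ℂ := (p : ℂ) ^ (-(1 + t * Complex.I) : ℂ)

theorem xx_eq {p : ℕ} (hp : 0 < p) (t : ℝ) :
    xx t p = ((1 / p : ℝ) : ℂ) * Complex.exp (((-(t * Real.log p) : ℝ) : ℂ) * Complex.I) := by
  have hp0 : (0 : ℝ) < p := by exact_mod_cast hp
  have hpc : (p : ℂ) ≠ 0 := by exact_mod_cast hp0.ne'
  unfold xx
  rw [Complex.cpow_def_of_ne_zero hpc]
  have e2 : Complex.log (p : ℂ) = ((Real.log p : ℝ) : ℂ) := by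
    rw [← Complex.ofReal_natCast, Complex.ofReal_log hp0.le]
  have e3 : ((1 / p : ℝ) : ℂ) = Complex.exp (((-(Real.log p) : ℝ) : ℂ)) := by
    rw [← Complex.ofReal_exp]
    congr 1
    rw [Real.exp_neg, Real.exp_log hp0, one_div]
  rw [e2, e3, ← Complex.exp_add]
  congr 1
  push_cast
  ring

theorem xx_norm {p : ℕ} (hp : 0 < p) (t : ℝ) : ‖xx t p‖ = 1 / p := by
  have hp0 : (0 : ℝ) < p := by exact_mod_cast hp
  rw [xx_eq hp, norm_mul, Complex.norm_exp_ofReal_mul_I, mul_one, Complex.norm_real, Real.norm_of_nonneg (by positivity)]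

theorem xx_re {p : ℕ} (hp : 0 < p) (t : ℝ) : (xx t p).re = kp t p / p := by
  rw [xx_eq hp, Complex.re_ofReal_mul, Complex.exp_ofReal_mul_I_re, Real.cos_neg]
  unfold kp
  ring

theorem xx_sq_re {p : ℕ} (hp : 0 < p) (t : ℝ) : (xx t p ^ 2).re = kp (2 * t) p / (p : ℝ) ^ 2 := by
  have e : xx t p ^ 2 = (((1 / (p : ℝ)) ^ 2 : ℝ) : ℂ) * Complex.exp (((-(2 * t * Real.log p) : ℝ) : ℂ) * Complex.I) := by
    rw [xx_eq hp, mul_pow, ← Complex.exp_nat_mul]
    push_cast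
    congr 2
    ring
  rw [e, Complex.re_ofReal_mul, Complex.exp_ofReal_mul_I_re, Real.cos_neg]
  unfold kp
  ring

/-- The sums of `p ^ (-3/2)`. -/
theorem sum_three_half : ∃ C : ℝ, 0 ≤ C ∧ ∀ S : Finset ℕ, ∑ p ∈ S, 1 / ((p : ℝ) * √p) ≤ C := by
  have hs : Summable (fun n : ℕ => 1 / ((n : ℝ) * √n)) := by
    have h1 : Summable (fun n : ℕ => 1 / (n : ℝ) ^ (3 / 2 : ℝ)) := Real.summable_one_div_nat_rpow.2 (by norm_num)
    refine h1.congr fun n => ?_
    congr 1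
    rcases Nat.eq_zero_or_pos n with h | h
    · subst h
      norm_num
    · have hn : (0 : ℝ) < n := by exact_mod_cast h
      rw [Real.sqrt_eq_rpow, show (3 / 2 : ℝ) = 1 + 1 / 2 by norm_num, Real.rpow_add hn, Real.rpow_one]
  refine ⟨∑' n : ℕ, 1 / ((n : ℝ) * √n), tsum_nonneg fun n => by positivity, fun S => ?_⟩
  exact hs.sum_le_tsum S fun n _ => by positivity

/-- The difference of the sums over all primes and over the primes at least 5. -/
theorem PP_diff (f : ℕ → ℝ) (hf : ∀ p, |f p| ≤ 1) (T : ℕ) :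
    |∑ p ∈ (range (T + 1)).filter Nat.Prime, f p / p - ∑ p ∈ PP T, f p / p| ≤ 1 := by
  have h1 : ∑ p ∈ (range (T + 1)).filter Nat.Prime, f p / p - ∑ p ∈ PP T, f p / p =
      ∑ p ∈ ((range (T + 1)).filter Nat.Prime).filter (fun p => ¬ 5 ≤ p), f p / p := by
    have h2 := Finset.sum_filter_add_sum_filter_not ((range (T + 1)).filter Nat.Prime) (fun p => 5 ≤ p) (fun p => f p / p)
    have h3 : ((range (T + 1)).filter Nat.Prime).filter (fun p => 5 ≤ p) = PP T := by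
      unfold PP
      rw [Finset.filter_filter]
    rw [h3] at h2
    linarith
  rw [h1]
  refine (Finset.abs_sum_le_sum_abs _ _).trans ?_
  have hsub : ((range (T + 1)).filter Nat.Prime).filter (fun p => ¬ 5 ≤ p) ⊆ {2, 3} := by
    intro p hp
    simp only [Finset.mem_filter, Finset.mem_range, not_le] at hp
    obtain ⟨⟨_, hp1⟩, hp2⟩ := hp
    have h2 := hp1.two_le
    have hne4 : p ≠ 4 := by
      rintro rfl
      norm_num at hp1
    simp only [Finset.mem_insert, Finset.mem_singleton]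
    omega
  have h4 : ∀ p : ℕ, |f p / p| ≤ 1 / p := by
    intro p
    rw [abs_div, abs_of_nonneg (Nat.cast_nonneg p : (0 : ℝ) ≤ p)]
    exact div_le_div_of_nonneg_right (hf p) (Nat.cast_nonneg p)
  calc ∑ p ∈ ((range (T + 1)).filter Nat.Prime).filter (fun p => ¬ 5 ≤ p), |f p / p| ≤
      ∑ p ∈ ({2, 3} : Finset ℕ), |f p / p| := Finset.sum_le_sum_of_subset_of_nonneg hsub fun _ _ _ => abs_nonneg _
    _ ≤ ∑ p ∈ ({2, 3} : Finset ℕ), 1 / (p : ℝ) := Finset.sum_le_sum fun p _ => h4 p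
    _ ≤ 1 := by
        rw [Finset.sum_pair (by norm_num)]
        norm_num

theorem PP_cos {t : ℝ} (ht : t ≠ 0) : ∃ C : ℝ, 0 ≤ C ∧ ∀ T : ℕ, |∑ p ∈ PP T, kp t p / p| ≤ C := by
  obtain ⟨C, hC0, hC⟩ := MZ.cos_bdd ht
  refine ⟨C + 1, by linarith, fun T => ?_⟩
  have h1 := PP_diff (kp t) (kp_abs t) T
  have h2 := hC T
  have e : ∑ p ∈ PP T, kp t p / p = ∑ p ∈ (range (T + 1)).filter Nat.Prime, kp t p / p -
      (∑ p ∈ (range (T + 1)).filter Nat.Prime, kp t p / p - ∑ p ∈ PP T, kp t p / p) := by ring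
  rw [e]
  exact (abs_sub _ _).trans (add_le_add h2 h1)

theorem PP_inv : ∃ C : ℝ, 0 ≤ C ∧ ∀ T : ℕ, 3 ≤ T → |∑ p ∈ PP T, 1 / (p : ℝ) - Real.log (Real.log T)| ≤ C := by
  obtain ⟨C, hC⟩ := Pool.Agent.Erdos456.Mert.mertens_inv
  refine ⟨|C| + 1, by positivity, fun T hT => ?_⟩
  have h1 := PP_diff (fun _ => 1) (fun _ => by simp) T
  have h2 := hC T hT
  have e0 : (Finset.Icc 1 T).filter Nat.Prime = (Finset.range (T + 1)).filter Nat.Prime := by
    ext p
    simp only [Finset.mem_filter, Finset.mem_Icc, Finset.mem_range]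
    constructor
    · rintro ⟨⟨_, h⟩, hp⟩
      exact ⟨by omega, hp⟩
    · rintro ⟨h, hp⟩
      exact ⟨⟨hp.one_lt.le, by omega⟩, hp⟩
  rw [e0] at h2
  have e : ∑ p ∈ PP T, 1 / (p : ℝ) - Real.log (Real.log T) =
      (∑ p ∈ (range (T + 1)).filter Nat.Prime, (1 : ℝ) / p - Real.log (Real.log T)) -
      (∑ p ∈ (range (T + 1)).filter Nat.Prime, (1 : ℝ) / p - ∑ p ∈ PP T, (1 : ℝ) / p) := by ring
  rw [e]
  exact (abs_sub _ _).trans (add_le_add (h2.trans (le_abs_self C)) h1)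

/-- Means of nonnegative local functions. -/
theorem EB_local {n : ℕ} {H p : ℕ} [NeZero p] (hp : p ≤ H) (f : (Fin n → ZMod p) → ℝ) (hf : ∀ c, 0 ≤ f c) :
    EB H (fun c => f (red p c)) ≤ 2 ^ (n + 1) * EM p f := by
  have h := EB_one_mod H p (by omega) f
  rw [Fintype.card_fin] at h
  have e : (fun c => |f c|) = f := by
    funext c
    exact abs_of_nonneg (hf c)
  have h0 : 0 ≤ EM p f := Pool.Agent.U62.RB.EM_nonneg' p f hf
  have h1 : (p : ℝ) / (2 * H + 1) ≤ 1 := by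
    rw [div_le_one (by positivity)]
    have : (p : ℝ) ≤ H := by exact_mod_cast hp
    have : (0 : ℝ) ≤ H := Nat.cast_nonneg H
    linarith
  have h2 := (abs_le.1 h).2
  rw [e] at h2
  have h3 : (2 : ℝ) ^ n * ((p : ℝ) / (2 * H + 1)) * EM p f ≤ 2 ^ n * 1 * EM p f :=
    mul_le_mul_of_nonneg_right (mul_le_mul_of_nonneg_left h1 (by positivity)) h0
  have h4 : (1 : ℝ) ≤ 2 ^ n := one_le_pow₀ (by norm_num)
  rw [pow_succ]
  nlinarith

end Pool.Agent.U62.SC
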